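import Mathlib

namespace Pool.Agent.R688.AN

universe v

/-- the algebra `S ⊕ S p ⊕ S q` with `p² = u q`, `p q = u y p + u² x²`, `q² = u y q + u x² p`. -/
@[ext] structure Bx (S : Type v) (x y u : S) where
  a : S
  b : S
  c : S

namespace Bx
variable {S : Type v} [CommRing S] {x y u : S}

instance : Zero (Bx S x y u) := ⟨⟨0, 0, 0⟩⟩
instance : One (Bx S x y u) := ⟨⟨1, 0, 0⟩⟩
instance : Add (Bx S x y u) := ⟨fun v w => ⟨v.a + w.a, v.b + w.b, v.c + w.c⟩⟩
instance : Neg (Bx S x y u) := ⟨fun v => ⟨-v.a, -v.b, -v.c⟩⟩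
instance : Sub (Bx S x y u) := ⟨fun v w => ⟨v.a - w.a, v.b - w.b, v.c - w.c⟩⟩
instance : Mul (Bx S x y u) := ⟨fun v w =>
  ⟨v.a * w.a + u ^ 2 * x ^ 2 * (v.b * w.c + v.c * w.b),
   v.a * w.b + v.b * w.a + u * y * (v.b * w.c + v.c * w.b) + u * x ^ 2 * (v.c * w.c),
   v.a * w.c + v.c * w.a + u * (v.b * w.b) + u * y * (v.c * w.c)⟩⟩

@[simp] theorem zero_a : (0 : Bx S x y u).a = 0 := rfl
@[simp] theorem zero_b : (0 : Bx S x y u).b = 0 := rfl
@[simp] theorem zero_c : (0 : Bx S x y u).c = 0 := rfl
@[simp] theorem one_a : (1 : Bx S x y u).a = 1 := rfl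
@[simp] theorem one_b : (1 : Bx S x y u).b = 0 := rfl
@[simp] theorem one_c : (1 : Bx S x y u).c = 0 := rfl
@[simp] theorem add_a (v w : Bx S x y u) : (v + w).a = v.a + w.a := rfl
@[simp] theorem add_b (v w : Bx S x y u) : (v + w).b = v.b + w.b := rfl
@[simp] theorem add_c (v w : Bx S x y u) : (v + w).c = v.c + w.c := rfl
@[simp] theorem neg_a (v : Bx S x y u) : (-v).a = -v.a := rfl
@[simp] theorem neg_b (v : Bx S x y u) : (-v).b = -v.b := rfl
@[simp] theorem neg_c (v : Bx S x y u) : (-v).c = -v.c := rfl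
@[simp] theorem sub_a (v w : Bx S x y u) : (v - w).a = v.a - w.a := rfl
@[simp] theorem sub_b (v w : Bx S x y u) : (v - w).b = v.b - w.b := rfl
@[simp] theorem sub_c (v w : Bx S x y u) : (v - w).c = v.c - w.c := rfl
@[simp] theorem mul_a (v w : Bx S x y u) :
    (v * w).a = v.a * w.a + u ^ 2 * x ^ 2 * (v.b * w.c + v.c * w.b) := rfl
@[simp] theorem mul_b (v w : Bx S x y u) :
    (v * w).b = v.a * w.b + v.b * w.a + u * y * (v.b * w.c + v.c * w.b) + u * x ^ 2 * (v.c * w.c) := rfl
@[simp] theorem mul_c (v w : Bx S x y u) :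
    (v * w).c = v.a * w.c + v.c * w.a + u * (v.b * w.b) + u * y * (v.c * w.c) := rfl

instance : CommRing (Bx S x y u) where
  add_assoc v w z := by ext <;> simp [add_assoc]
  zero_add v := by ext <;> simp
  add_zero v := by ext <;> simp
  add_comm v w := by ext <;> simp [add_comm]
  neg_add_cancel v := by ext <;> simp
  sub_eq_add_neg v w := by ext <;> simp [sub_eq_add_neg]
  left_distrib v w z := by ext <;> simp <;> ring
  right_distrib v w z := by ext <;> simp <;> ring
  zero_mul v := by ext <;> simp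
  mul_zero v := by ext <;> simp
  mul_assoc v w z := by ext <;> simp <;> ring
  one_mul v := by ext <;> simp
  mul_one v := by ext <;> simp
  mul_comm v w := by ext <;> simp <;> ring
  nsmul := nsmulRec
  zsmul := zsmulRec

/-- the structure map -/
def iota : S →+* Bx S x y u where
  toFun s := ⟨s, 0, 0⟩
  map_one' := rfl
  map_zero' := rfl
  map_add' s t := by ext <;> simp
  map_mul' s t := by ext <;> simp

@[simp] theorem iota_a (s : S) : (iota s : Bx S x y u).a = s := rfl
@[simp] theorem iota_b (s : S) : (iota s : Bx S x y u).b = 0 := rfl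
@[simp] theorem iota_c (s : S) : (iota s : Bx S x y u).c = 0 := rfl

instance : Algebra S (Bx S x y u) := iota.toAlgebra

theorem algebraMap_eq : algebraMap S (Bx S x y u) = iota := rfl

theorem smul_eq (s : S) (v : Bx S x y u) : s • v = iota s * v := rfl
@[simp] theorem smul_a (s : S) (v : Bx S x y u) : (s • v).a = s * v.a := by
  rw [smul_eq]; simp
@[simp] theorem smul_b (s : S) (v : Bx S x y u) : (s • v).b = s * v.b := by
  rw [smul_eq]; simp
@[simp] theorem smul_c (s : S) (v : Bx S x y u) : (s • v).c = s * v.c := by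
  rw [smul_eq]; simp

def p : Bx S x y u := ⟨0, 1, 0⟩
def q : Bx S x y u := ⟨0, 0, 1⟩

@[simp] theorem p_a : (p : Bx S x y u).a = 0 := rfl
@[simp] theorem p_b : (p : Bx S x y u).b = 1 := rfl
@[simp] theorem p_c : (p : Bx S x y u).c = 0 := rfl
@[simp] theorem q_a : (q : Bx S x y u).a = 0 := rfl
@[simp] theorem q_b : (q : Bx S x y u).b = 0 := rfl
@[simp] theorem q_c : (q : Bx S x y u).c = 1 := rfl

theorem decomp (v : Bx S x y u) : v = iota v.a + iota v.b * p + iota v.c * q := by
  ext <;> simp

theorem pp : (p * p : Bx S x y u) = iota u * q := by ext <;> simp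
theorem pq : (p * q : Bx S x y u) = iota (u * y) * p + iota (u ^ 2 * x ^ 2) := by
  ext <;> simp [-map_pow, -map_mul]
theorem qq : (q * q : Bx S x y u) = iota (u * y) * q + iota (u * x ^ 2) * p := by
  ext <;> simp [-map_pow, -map_mul]

/-- the linear equivalence with `S × S × S` -/
def equiv : Bx S x y u ≃ₗ[S] S × S × S where
  toFun v := (v.a, v.b, v.c)
  invFun w := ⟨w.1, w.2.1, w.2.2⟩
  map_add' v w := rfl
  map_smul' s v := by simp
  left_inv v := rfl
  right_inv w := rfl

instance : Module.Finite S (Bx S x y u) := Module.Finite.equiv (equiv (x := x) (y := y) (u := u)).symm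

instance [IsNoetherianRing S] : IsNoetherianRing (Bx S x y u) :=
  isNoetherian_of_tower S (isNoetherian_of_isNoetherianRing_of_finite S (Bx S x y u))

theorem iota_injective : Function.Injective (iota : S → Bx S x y u) := by
  intro s t h
  have := congrArg Bx.a h
  simpa using this

instance (n : ℕ) [CharP S n] : CharP (Bx S x y u) n :=
  charP_of_injective_ringHom (f := (iota : S →+* Bx S x y u)) iota_injective n


section loc
variable [IsLocalRing S]

theorem isUnit_iff (hu : u ∈ IsLocalRing.maximalIdeal S) (v : Bx S x y u) :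
    IsUnit v ↔ IsUnit v.a := by
  constructor
  · intro h
    obtain ⟨w, hw⟩ := h.exists_right_inv
    have h1 := congrArg Bx.a hw
    simp only [mul_a, one_a] at h1
    by_contra h2
    have h3 : v.a ∈ IsLocalRing.maximalIdeal S := h2
    have h4 : (1 : S) ∈ IsLocalRing.maximalIdeal S := by
      rw [← h1]
      apply Ideal.add_mem
      · exact Ideal.mul_mem_right _ _ h3
      · rw [show u ^ 2 * x ^ 2 * (v.b * w.c + v.c * w.b) = u * (u * x ^ 2 * (v.b * w.c + v.c * w.b)) by ring]
        exact Ideal.mul_mem_right _ _ hu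
    exact (Ideal.ne_top_iff_one _).mp (IsLocalRing.maximalIdeal.isMaximal S).ne_top h4
  · intro h
    by_contra hv
    obtain ⟨M, hM, hvM⟩ := exists_max_ideal_of_mem_nonunits hv
    have hcm : (M.comap (algebraMap S (Bx S x y u))).IsMaximal :=
      Ideal.isMaximal_comap_of_isIntegral_of_isMaximal M
    have hce : M.comap (algebraMap S (Bx S x y u)) = IsLocalRing.maximalIdeal S :=
      IsLocalRing.eq_maximalIdeal hcm
    have huM : (iota u : Bx S x y u) ∈ M := by
      have : u ∈ M.comap (algebraMap S (Bx S x y u)) := by rw [hce]; exact hu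
      exact this
    have hpM : (p : Bx S x y u) ∈ M := by
      have : (p : Bx S x y u) * p ∈ M := by rw [pp]; exact M.mul_mem_right _ huM
      rcases hM.isPrime.mem_or_mem this with h | h <;> exact h
    have hqM : (q : Bx S x y u) ∈ M := by
      have : (q : Bx S x y u) * q ∈ M := by
        rw [qq, map_mul, map_mul]
        apply M.add_mem
        · rw [mul_assoc]; exact M.mul_mem_right _ huM
        · rw [mul_assoc]; exact M.mul_mem_right _ huM
      rcases hM.isPrime.mem_or_mem this with h | h <;> exact h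
    have haM : (iota v.a : Bx S x y u) ∈ M := by
      have : (iota v.a : Bx S x y u) = v - iota v.b * p - iota v.c * q := by
        have := decomp v
        linear_combination -this
      rw [this]
      exact M.sub_mem (M.sub_mem hvM (M.mul_mem_left _ hpM)) (M.mul_mem_left _ hqM)
    exact hM.ne_top (M.eq_top_of_isUnit_mem haM (h.map iota))

theorem isLocalRing (hu : u ∈ IsLocalRing.maximalIdeal S) : IsLocalRing (Bx S x y u) := by
  have : Nontrivial (Bx S x y u) := iota_injective.nontrivial
  refine IsLocalRing.of_nonunits_add ?_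
  intro v w hv hw h
  rw [isUnit_iff hu] at h
  have hv' : v.a ∈ IsLocalRing.maximalIdeal S := fun h' => hv ((isUnit_iff hu v).mpr h')
  have hw' : w.a ∈ IsLocalRing.maximalIdeal S := fun h' => hw ((isUnit_iff hu w).mpr h')
  exact Ideal.add_mem _ hv' hw' h

end loc

end Bx

end Pool.Agent.R688.AN
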