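import Mathlib

namespace Pool.Agent.R688.AN
namespace Base
open MvPolynomial

abbrev A := MvPolynomial (Fin 3) (ZMod 2)

/-- the ideal generated by the variables -/
noncomputable def m : Ideal A := Ideal.span (X '' (Set.univ : Set (Fin 3)))

theorem mem_m (f : A) : f ∈ m ↔ constantCoeff f = 0 := by
  unfold m
  rw [mem_ideal_span_X_image]
  constructor
  · intro h
    by_contra h'
    obtain ⟨i, _, hi⟩ := h 0 (by rw [mem_support_iff]; exact h')
    exact hi rfl
  · intro h k hk
    by_contra h'
    push Not at h'
    have : k = 0 := by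
      ext i
      exact h' i (Set.mem_univ i)
    rw [this, mem_support_iff] at hk
    exact hk h

theorem m_eq_ker : m = RingHom.ker (constantCoeff : A →+* ZMod 2) := by
  ext f
  rw [mem_m]; rfl

instance : m.IsPrime := by rw [m_eq_ker]; exact RingHom.ker_isPrime _

/-- kernel of the map killing `X 0` and `X 2` -/
noncomputable def pA : Ideal A := Ideal.span (X '' ({0, 2} : Set (Fin 3)))

noncomputable def ev : A →+* A := (aeval (fun i : Fin 3 => if i = 1 then (X 1 : A) else 0)).toRingHom

theorem ev_X (i : Fin 3) : ev (X i) = if i = 1 then (X 1 : A) else 0 := by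
  simp [ev]

theorem pA_eq_ker : pA = RingHom.ker ev := by
  apply le_antisymm
  · unfold pA
    rw [Ideal.span_le]
    rintro _ ⟨i, hi, rfl⟩
    show ev (X i) = 0
    rw [ev_X]
    rcases hi with rfl | rfl
    · simp
    · simp
  · intro f hf
    have key : ∀ f : A, f - ev f ∈ pA := by
      intro f
      induction f using MvPolynomial.induction_on with
      | C a => simp [ev]
      | add f g hf hg =>
        rw [map_add]
        have := pA.add_mem hf hg
        convert this using 1
        ring
      | mul_X f i hf =>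
        rw [map_mul]
        have h2 : (X i : A) - ev (X i) ∈ pA := by
          rw [ev_X]
          fin_cases i
          · simp only [Fin.zero_eta, Fin.isValue, zero_ne_one, if_false, sub_zero]
            exact Ideal.subset_span ⟨0, by simp, rfl⟩
          · simp
          · simp only [Fin.reduceFinMk, Fin.isValue, Fin.reduceEq, if_false, sub_zero]
            exact Ideal.subset_span ⟨2, by simp, rfl⟩
        have := pA.add_mem (pA.mul_mem_right (X i) hf) (pA.mul_mem_left (ev f) h2)
        convert this using 1
        ring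
    have := key f
    rwa [show ev f = 0 from hf, sub_zero] at this

instance : pA.IsPrime := by rw [pA_eq_ker]; exact RingHom.ker_isPrime _

theorem X1_notMem : (X 1 : A) ∉ pA := by
  rw [pA_eq_ker]
  intro h
  have : ev (X 1) = 0 := h
  rw [ev_X, if_pos rfl] at this
  exact X_ne_zero 1 this

theorem pA_le_m : pA ≤ m := by
  unfold pA m
  exact Ideal.span_mono (Set.image_mono (Set.subset_univ _))

/-- multiplication by a variable not occurring in the generators is injective modulo a monomial
ideal -/
theorem col_A (s : Set (Fin 3 →₀ ℕ)) (i : Fin 3) (hs : ∀ k ∈ s, k i = 0) (n : ℕ) (z : A)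
    (h : X i ^ n * z ∈ Ideal.span ((fun s => monomial s (1 : ZMod 2)) '' s)) :
    z ∈ Ideal.span ((fun s => monomial s (1 : ZMod 2)) '' s) := by
  rw [mem_ideal_span_monomial_image] at h ⊢
  intro k hk
  have h1 : (Finsupp.single i n + k) ∈ (X i ^ n * z).support := by
    rw [mem_support_iff, X_pow_eq_monomial, coeff_monomial_mul, one_mul]
    exact mem_support_iff.mp hk
  obtain ⟨l, hl, hle⟩ := h _ h1
  refine ⟨l, hl, fun j => ?_⟩
  have := hle j
  rw [Finsupp.add_apply] at this
  by_cases hj : i = j
  · subst hj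
    rw [hs l hl]
    exact Nat.zero_le _
  · rwa [Finsupp.single_eq_of_ne' hj, zero_add] at this

/-- the property passes to localizations -/
theorem col_loc {A S : Type*} [CommRing A] [CommRing S] [Algebra A S] (M : Submonoid A)
    [IsLocalization M S] (J : Ideal A) (r : A) (h : ∀ z, r * z ∈ J → z ∈ J) (z : S)
    (hz : algebraMap A S r * z ∈ J.map (algebraMap A S)) : z ∈ J.map (algebraMap A S) := by
  obtain ⟨⟨a, s⟩, has⟩ := IsLocalization.surj M z
  simp only at has
  have h1 : algebraMap A S (r * a) ∈ J.map (algebraMap A S) := by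
    rw [map_mul, ← has, ← mul_assoc]
    exact Ideal.mul_mem_right _ _ hz
  rw [IsLocalization.algebraMap_mem_map_algebraMap_iff M] at h1
  obtain ⟨t, ht, h2⟩ := h1
  have h3 : t * a ∈ J := h _ (by rw [show r * (t * a) = t * (r * a) by ring]; exact h2)
  have h4 : algebraMap A S a ∈ J.map (algebraMap A S) := by
    rw [IsLocalization.algebraMap_mem_map_algebraMap_iff M]
    exact ⟨t, ht, h3⟩
  rw [← has, mul_comm] at h4
  exact (Ideal.unit_mul_mem_iff_mem _ (IsLocalization.map_units S s)).mp h4

/-- the regular local ring of dimension three -/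
abbrev S := Localization.AtPrime m

noncomputable def x : S := algebraMap A S (X 0)
noncomputable def y : S := algebraMap A S (X 1)
noncomputable def u : S := algebraMap A S (X 2)

instance : IsDomain S := IsLocalization.isDomain_localization (Ideal.primeCompl_le_nonZeroDivisors m)

theorem algS_inj : Function.Injective (algebraMap A S) :=
  IsLocalization.injective S (Ideal.primeCompl_le_nonZeroDivisors m)

instance : CharP S 2 := charP_of_injective_ringHom algS_inj 2

theorem x_ne : x ≠ 0 := fun h => X_ne_zero (R := ZMod 2) (0 : Fin 3) (algS_inj (by rw [map_zero]; exact h))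
theorem y_ne : y ≠ 0 := fun h => X_ne_zero (R := ZMod 2) (1 : Fin 3) (algS_inj (by rw [map_zero]; exact h))
theorem u_ne : u ≠ 0 := fun h => X_ne_zero (R := ZMod 2) (2 : Fin 3) (algS_inj (by rw [map_zero]; exact h))

theorem maxS : IsLocalRing.maximalIdeal S = Ideal.span {x, y, u} := by
  rw [← IsLocalization.AtPrime.map_eq_maximalIdeal m S]
  unfold m
  rw [Ideal.map_span]
  congr 1
  ext z
  constructor
  · rintro ⟨_, ⟨i, _, rfl⟩, rfl⟩
    fin_cases i
    · left; rfl
    · right; left; rfl
    · right; right; rfl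
  · rintro (rfl | rfl | rfl)
    · exact ⟨_, ⟨0, Set.mem_univ _, rfl⟩, rfl⟩
    · exact ⟨_, ⟨1, Set.mem_univ _, rfl⟩, rfl⟩
    · exact ⟨_, ⟨2, Set.mem_univ _, rfl⟩, rfl⟩

theorem hS (s : S) : ∃ ε s₁ s₂ s₃, (ε = 0 ∨ ε = 1) ∧ s = ε + x * s₁ + y * s₂ + u * s₃ := by
  obtain ⟨⟨a, t⟩, hat⟩ := IsLocalization.surj m.primeCompl s
  simp only at hat
  have ht : constantCoeff (t : A) = 1 := by
    have h1 : constantCoeff (t : A) ≠ 0 := fun h => t.2 ((mem_m _).mpr h)
    generalize constantCoeff (t : A) = r at h1 ⊢
    revert r; decide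
  obtain ⟨ε, hε, hεa⟩ : ∃ ε : A, (ε = 0 ∨ ε = 1) ∧ constantCoeff ε = constantCoeff a := by
    have : constantCoeff a = 0 ∨ constantCoeff a = 1 := by
      generalize constantCoeff a = r
      revert r; decide
    rcases this with h | h
    · exact ⟨0, Or.inl rfl, by rw [h, map_zero]⟩
    · exact ⟨1, Or.inr rfl, by rw [h, map_one]⟩
  have h1 : s - algebraMap A S ε ∈ IsLocalRing.maximalIdeal S := by
    have h2 : algebraMap A S (a - ε * t) ∈ IsLocalRing.maximalIdeal S := by
      rw [← IsLocalization.AtPrime.map_eq_maximalIdeal m S]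
      apply Ideal.mem_map_of_mem
      rw [mem_m, map_sub, map_mul, hεa, ht]
      ring
    rw [map_sub, map_mul, ← hat, ← sub_mul, mul_comm] at h2
    exact (Ideal.unit_mul_mem_iff_mem _ (IsLocalization.map_units S t)).mp h2
  rw [maxS, Submodule.mem_span_triple] at h1
  obtain ⟨s₁, s₂, s₃, h⟩ := h1
  refine ⟨algebraMap A S ε, s₁, s₂, s₃, ?_, ?_⟩
  · rcases hε with rfl | rfl
    · left; exact map_zero _
    · right; exact map_one _
  · simp only [smul_eq_mul] at h
    linear_combination -h

theorem S_col1 (k : ℕ) (z : S) (h : x ^ k ∣ y ^ k * z) : x ^ k ∣ z := by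
  have h1 := col_loc (S := S) m.primeCompl
    (Ideal.span ((fun s => monomial s (1 : ZMod 2)) '' {Finsupp.single 0 k})) (X 1 ^ k)
    (fun z hz => col_A _ 1 (by rintro _ rfl; simp) k z hz) z
  rw [Set.image_singleton, Ideal.map_span, Set.image_singleton, ← X_pow_eq_monomial, map_pow, map_pow,
    Ideal.mem_span_singleton, Ideal.mem_span_singleton] at h1
  exact h1 h

theorem S_col2 (k : ℕ) (z a b : S) (h : u ^ k * z = x ^ k * a + y ^ k * b) :
    ∃ a' b', z = x ^ k * a' + y ^ k * b' := by
  have h1 := col_loc (S := S) m.primeCompl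
    (Ideal.span ((fun s => monomial s (1 : ZMod 2)) '' {Finsupp.single 0 k, Finsupp.single 1 k}))
    (X 2 ^ k)
    (fun z hz => col_A _ 2 (by rintro _ (rfl | rfl) <;> simp) k z hz) z
  rw [Set.image_pair, Ideal.map_span, Set.image_pair, ← X_pow_eq_monomial, ← X_pow_eq_monomial,
    map_pow, map_pow, map_pow, Ideal.mem_span_pair, Ideal.mem_span_pair] at h1
  obtain ⟨a', b', h2⟩ := h1 ⟨a, b, by
    show a * x ^ k + b * y ^ k = u ^ k * z
    rw [h]; ring⟩
  refine ⟨a', b', ?_⟩
  have h3 : a' * x ^ k + b' * y ^ k = z := h2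
  rw [← h3]; ring

theorem S_col3 (j n : ℕ) (z : S) (h : u ^ n ∣ x ^ j * z) : u ^ n ∣ z := by
  have h1 := col_loc (S := S) m.primeCompl
    (Ideal.span ((fun s => monomial s (1 : ZMod 2)) '' {Finsupp.single 2 n})) (X 0 ^ j)
    (fun z hz => col_A _ 0 (by rintro _ rfl; simp) j z hz) z
  rw [Set.image_singleton, Ideal.map_span, Set.image_singleton, ← X_pow_eq_monomial, map_pow, map_pow,
    Ideal.mem_span_singleton, Ideal.mem_span_singleton] at h1
  exact h1 h

/-- the prime ideal `(x, u)` -/
noncomputable def pS : Ideal S := pA.map (algebraMap A S)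

theorem disj : Disjoint (m.primeCompl : Set A) (pA : Set A) := by
  rw [Set.disjoint_left]
  intro a ha ha'
  exact ha (pA_le_m ha')

instance pS_prime : pS.IsPrime :=
  IsLocalization.isPrime_of_isPrime_disjoint m.primeCompl S pA inferInstance disj

theorem pS_eq : pS = Ideal.span {x, u} := by
  unfold pS pA
  rw [Ideal.map_span, Set.image_pair, Set.image_pair]
  rfl

theorem y_notMem : y ∉ pS := by
  intro h
  unfold pS y at h
  rw [IsLocalization.algebraMap_mem_map_algebraMap_iff m.primeCompl] at h
  obtain ⟨t, ht, h⟩ := h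
  rcases (inferInstance : pA.IsPrime).mem_or_mem h with h | h
  · exact ht (pA_le_m h)
  · exact X1_notMem h

/-- the regular local ring of dimension two -/
abbrev T := Localization.AtPrime pS

noncomputable def x' : T := algebraMap S T x
noncomputable def y' : T := algebraMap S T y
noncomputable def u' : T := algebraMap S T u

instance : IsDomain T := IsLocalization.isDomain_localization (Ideal.primeCompl_le_nonZeroDivisors pS)

theorem algT_inj : Function.Injective (algebraMap S T) :=
  IsLocalization.injective T (Ideal.primeCompl_le_nonZeroDivisors pS)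

instance : CharP T 2 := charP_of_injective_ringHom algT_inj 2

theorem x'_ne : x' ≠ 0 := fun h => x_ne (algT_inj (by rw [map_zero]; exact h))
theorem u'_ne : u' ≠ 0 := fun h => u_ne (algT_inj (by rw [map_zero]; exact h))

theorem maxT : IsLocalRing.maximalIdeal T = Ideal.span {x', u'} := by
  have h1 : pS.map (algebraMap S T) = (Ideal.span {x, u}).map (algebraMap S T) :=
    congrArg (fun J => Ideal.map (algebraMap S T) J) pS_eq
  rw [← IsLocalization.AtPrime.map_eq_maximalIdeal pS T, h1, Ideal.map_span, Set.image_pair]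
  rfl

theorem T_col (j n : ℕ) (z : T) (h : u' ^ n ∣ x' ^ j * z) : u' ^ n ∣ z := by
  have h1 := col_loc (S := T) pS.primeCompl (Ideal.span {u ^ n}) (x ^ j)
    (fun z hz => by
      rw [Ideal.mem_span_singleton] at hz ⊢
      exact S_col3 j n z hz) z
  rw [Ideal.map_span, Set.image_singleton, map_pow, map_pow,
    Ideal.mem_span_singleton, Ideal.mem_span_singleton] at h1
  exact h1 h

theorem y'_unit : ∃ yi : T, y' * yi = 1 := by
  have h : IsUnit (algebraMap S T y) := IsLocalization.map_units T (⟨y, y_notMem⟩ : pS.primeCompl)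
  exact h.exists_right_inv

theorem one_notMem : ¬ ∃ a b, (1 : T) = x' * a + u' * b := by
  rintro ⟨a, b, h⟩
  have : (1 : T) ∈ IsLocalRing.maximalIdeal T := by
    rw [maxT, Ideal.mem_span_pair]
    exact ⟨a, b, by rw [h]; ring⟩
  exact (Ideal.ne_top_iff_one _).mp (IsLocalRing.maximalIdeal.isMaximal T).ne_top this

theorem u_mem : u ∈ IsLocalRing.maximalIdeal S := by
  rw [maxS]; exact Ideal.subset_span (by simp)
theorem u'_mem : u' ∈ IsLocalRing.maximalIdeal T := by
  rw [maxT]; exact Ideal.subset_span (by simp)

end Base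
end Pool.Agent.R688.AN
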