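import Mathlib

/-! Čech cohomology with its Frobenius action. -/

namespace Pool.Agent.R688.AN.Cech
open Finset

universe v

/-- `F` (a Frobenius action, i.e. a map semilinear over the Frobenius of `R`) is anti-nilpotent:
it descends to an injective map on `M / N` for every `F`-stable submodule `N`. -/
def IsAntiNilpotent {R : Type v} [CommRing R] {p : ℕ} [Fact p.Prime] [CharP R p]
    {M : Type v} [AddCommGroup M] [Module R M] (F : M →ₛₗ[frobenius R p] M) : Prop :=
  ∀ (N : Submodule R M) (h : N ≤ N.comap F), Function.Injective (N.mapQ N F h)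

variable {R : Type v} [CommRing R] {n : ℕ}

/-- `R_s`: the localization of `R` at the product of the `f j`, `j ∈ s`. -/
def CLoc (f : Fin n → R) (s : Finset (Fin n)) : Type v :=
  Localization.Away (∏ j ∈ s, f j)

noncomputable instance instCommRingCLoc (f : Fin n → R) (s : Finset (Fin n)) :
    CommRing (CLoc f s) :=
  (inferInstance : CommRing (Localization.Away (∏ j ∈ s, f j)))

noncomputable instance instAlgebraCLoc (f : Fin n → R) (s : Finset (Fin n)) :
    Algebra R (CLoc f s) :=
  (inferInstance : Algebra R (Localization.Away (∏ j ∈ s, f j)))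

instance instIsLocalizationCLoc (f : Fin n → R) (s : Finset (Fin n)) :
    IsLocalization.Away (∏ j ∈ s, f j) (CLoc f s) :=
  (inferInstance : IsLocalization.Away (∏ j ∈ s, f j) (Localization.Away (∏ j ∈ s, f j)))

theorem isUnit_res (f : Fin n → R) {s t : Finset (Fin n)} (h : s ⊆ t) :
    IsUnit (algebraMap R (CLoc f t) (∏ j ∈ s, f j)) :=
  isUnit_of_dvd_unit (map_dvd _ (Finset.prod_dvd_prod_of_subset s t f h))
    (IsLocalization.Away.algebraMap_isUnit _)

/-- the localization map `R_s → R_t` for `s ⊆ t`. -/
noncomputable def res (f : Fin n → R) {s t : Finset (Fin n)} (h : s ⊆ t) :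
    CLoc f s →+* CLoc f t :=
  IsLocalization.Away.lift (∏ j ∈ s, f j) (isUnit_res f h)

theorem res_algebraMap (f : Fin n → R) {s t : Finset (Fin n)} (h : s ⊆ t) (r : R) :
    res f h (algebraMap R _ r) = algebraMap R _ r :=
  IsLocalization.Away.lift_eq _ _ _

theorem res_smul (f : Fin n → R) {s t : Finset (Fin n)} (h : s ⊆ t) (r : R) (z : CLoc f s) :
    res f h (r • z) = r • res f h z := by
  rw [Algebra.smul_def, map_mul, res_algebraMap, ← Algebra.smul_def]

/-- Families of elements of the `R_s`, for all subsets `s`; the degree `i` part of the Čech complex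
consists of the families supported on the subsets with `i` elements. -/
def Cochain (f : Fin n → R) : Type v := (s : Finset (Fin n)) → CLoc f s

noncomputable instance instAddCommGroupCochain (f : Fin n → R) : AddCommGroup (Cochain f) :=
  (inferInstance : AddCommGroup ((s : Finset (Fin n)) → CLoc f s))

noncomputable instance instModuleCochain (f : Fin n → R) : Module R (Cochain f) :=
  (inferInstance : Module R ((s : Finset (Fin n)) → CLoc f s))

theorem add_apply (f : Fin n → R) (c c' : Cochain f) (s : Finset (Fin n)) :
    (c + c') s = c s + c' s := rfl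

theorem smul_apply (f : Fin n → R) (r : R) (c : Cochain f) (s : Finset (Fin n)) :
    (r • c) s = r • c s := rfl

theorem zero_apply (f : Fin n → R) (s : Finset (Fin n)) : (0 : Cochain f) s = 0 := rfl

/-- the component of the Čech differential at `t`. -/
noncomputable def difAt (f : Fin n → R) (c : Cochain f) (t : Finset (Fin n)) : CLoc f t :=
  ∑ j ∈ t, (-1) ^ (#{l ∈ t | l < j}) * res f (t.erase_subset j) (c (t.erase j))

theorem difAt_add (f : Fin n → R) (c c' : Cochain f) (t : Finset (Fin n)) :
    difAt f (c + c') t = difAt f c t + difAt f c' t := by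
  unfold difAt
  simp only [add_apply, map_add, mul_add, sum_add_distrib]

theorem difAt_smul (f : Fin n → R) (r : R) (c : Cochain f) (t : Finset (Fin n)) :
    difAt f (r • c) t = r • difAt f c t := by
  unfold difAt
  simp only [smul_apply, res_smul, mul_smul_comm, smul_sum]

/-- the Čech differential. -/
noncomputable def dif (f : Fin n → R) : Cochain f →ₗ[R] Cochain f where
  toFun c := difAt f c
  map_add' c c' := funext (difAt_add f c c')
  map_smul' r c := funext (difAt_smul f r c)

/-- the degree `i` part of the Čech complex. -/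
def deg (f : Fin n → R) (i : ℕ) : Submodule R (Cochain f) where
  carrier := {c | ∀ s : Finset (Fin n), s.card ≠ i → c s = 0}
  zero_mem' := fun _ _ => rfl
  add_mem' := fun {a b} ha hb s hs => by rw [add_apply, ha s hs, hb s hs, add_zero]
  smul_mem' := fun r a ha s hs => by rw [smul_apply, ha s hs, smul_zero]

/-- the cocycles of degree `i`. -/
noncomputable def cocycles (f : Fin n → R) (i : ℕ) : Submodule R (Cochain f) :=
  deg f i ⊓ LinearMap.ker (dif f)

/-- the coboundaries of degree `i`. -/
noncomputable def coboundaries (f : Fin n → R) : ℕ → Submodule R (Cochain f)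
  | 0 => ⊥
  | i + 1 => (deg f i).map (dif f)

/-- the coboundaries of degree `i`, as a submodule of the cocycles of degree `i`. -/
noncomputable def cobZ (f : Fin n → R) (i : ℕ) : Submodule R (cocycles f i) :=
  (coboundaries f i).submoduleOf (cocycles f i)

/-- `H^i(f; R)`, the degree `i` cohomology of the Čech complex. -/
def CechH (f : Fin n → R) (i : ℕ) : Type v := cocycles f i ⧸ cobZ f i

noncomputable instance instAddCommGroupCechH (f : Fin n → R) (i : ℕ) : AddCommGroup (CechH f i) :=
  (inferInstance : AddCommGroup (cocycles f i ⧸ cobZ f i))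

noncomputable instance instModuleCechH (f : Fin n → R) (i : ℕ) : Module R (CechH f i) :=
  (inferInstance : Module R (cocycles f i ⧸ cobZ f i))

section frob
variable (p : ℕ) [hp : Fact p.Prime] [CharP R p]

include hp in
theorem add_pow' {A : Type v} [CommRing A] [Algebra R A] (a b : A) :
    (a + b) ^ p = a ^ p + b ^ p := by
  rw [add_pow_prime_eq hp.out a b]
  have : (p : A) = 0 := by
    rw [← map_natCast (algebraMap R A) p, CharP.cast_eq_zero, map_zero]
  rw [this]
  ring

/-- the `p`-th power map as additive map -/
def powHom (R : Type v) [CommRing R] [CharP R p] (A : Type v) [CommRing A] [Algebra R A] : A →+ A where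
  toFun a := a ^ p
  map_zero' := zero_pow hp.out.ne_zero
  map_add' a b := add_pow' (R := R) p a b

theorem neg_one_pow' (R : Type v) [CommRing R] [CharP R p] {A : Type v} [CommRing A] [Algebra R A]
    (k : ℕ) : ((-1 : A) ^ k) ^ p = (-1) ^ k := by
  have h : (-1 : A) ^ p = -1 := by
    have := map_neg (powHom p R A) 1
    simpa [powHom] using this
  rw [← pow_mul, mul_comm, pow_mul, h]

/-- the Frobenius action on the Čech complex: the `p`-th power map on every `R_s`. -/
noncomputable def frobC (f : Fin n → R) : Cochain f →ₛₗ[frobenius R p] Cochain f where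
  toFun c := fun s => c s ^ p
  map_add' c c' := funext fun s => add_pow' (R := R) p (c s) (c' s)
  map_smul' r c := funext fun s => smul_pow r (c s) p

theorem dif_frobC (f : Fin n → R) (c : Cochain f) : dif f (frobC p f c) = frobC p f (dif f c) := by
  funext t
  show ∑ j ∈ t, (-1) ^ (#{l ∈ t | l < j}) * res f (t.erase_subset j) (c (t.erase j) ^ p) =
    (∑ j ∈ t, (-1) ^ (#{l ∈ t | l < j}) * res f (t.erase_subset j) (c (t.erase j))) ^ p
  have := map_sum (powHom p R (CLoc f t))
    (fun j => (-1) ^ (#{l ∈ t | l < j}) * res f (t.erase_subset j) (c (t.erase j))) t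
  refine Eq.trans ?_ this.symm
  refine Finset.sum_congr rfl (fun j _ => ?_)
  simp only [powHom, AddMonoidHom.coe_mk, ZeroHom.coe_mk]
  rw [mul_pow, neg_one_pow' p R, map_pow]

theorem frobC_deg (f : Fin n → R) (i : ℕ) {c : Cochain f} (hc : c ∈ deg f i) :
    frobC p f c ∈ deg f i := fun s hs => by
  show c s ^ p = 0
  rw [hc s hs, zero_pow hp.out.ne_zero]

theorem frobC_cocycles (f : Fin n → R) (i : ℕ) {c : Cochain f} (hc : c ∈ cocycles f i) :
    frobC p f c ∈ cocycles f i := by
  refine ⟨frobC_deg p f i hc.1, ?_⟩
  show dif f (frobC p f c) = 0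
  rw [dif_frobC, show dif f c = 0 from hc.2, map_zero]

theorem frobC_coboundaries (f : Fin n → R) (i : ℕ) {c : Cochain f} (hc : c ∈ coboundaries f i) :
    frobC p f c ∈ coboundaries f i := by
  cases i with
  | zero =>
    have : c = 0 := hc
    rw [this, map_zero]
    exact Submodule.zero_mem _
  | succ i =>
    obtain ⟨b, hb, rfl⟩ := hc
    exact ⟨frobC p f b, frobC_deg p f i hb, dif_frobC p f b⟩

/-- the Frobenius action on the cocycles -/
noncomputable def frobZ (f : Fin n → R) (i : ℕ) : cocycles f i →ₛₗ[frobenius R p] cocycles f i :=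
  ((frobC p f).domRestrict (cocycles f i)).codRestrict (cocycles f i)
    (fun c => frobC_cocycles p f i c.2)

theorem frobZ_cobZ (f : Fin n → R) (i : ℕ) : cobZ f i ≤ (cobZ f i).comap (frobZ p f i) :=
  fun c hc => frobC_coboundaries p f i (c := c.1) hc

/-- the Frobenius action on the Čech cohomology: induced by the `p`-th power map on every `R_s`. -/
noncomputable def frobH (f : Fin n → R) (i : ℕ) : CechH f i →ₛₗ[frobenius R p] CechH f i :=
  (cobZ f i).mapQ (cobZ f i) (frobZ p f i) (frobZ_cobZ p f i)

end frob

end Pool.Agent.R688.AN.Cech
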