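import Pool.Agent.R688.AN.Cech

namespace Pool.Agent.R688.AN.Cech
open Finset

universe v
variable {R : Type v} [CommRing R]

theorem isAntiNilpotent_iff {p : ℕ} [Fact p.Prime] [CharP R p]
    {M : Type v} [AddCommGroup M] [Module R M] (F : M →ₛₗ[frobenius R p] M) :
    IsAntiNilpotent F ↔ ∀ N : Submodule R M, (∀ x ∈ N, F x ∈ N) → ∀ x, F x ∈ N → x ∈ N := by
  constructor
  · intro h N hN x hx
    have h' := h N (fun y hy => hN y hy)
    have : Submodule.Quotient.mk (p := N) x = 0 := by
      apply h'
      rw [map_zero]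
      show Submodule.Quotient.mk (F x) = 0
      exact (Submodule.Quotient.mk_eq_zero N).mpr hx
    exact (Submodule.Quotient.mk_eq_zero N).mp this
  · intro h N hN
    have hN' : ∀ x ∈ N, F x ∈ N := fun x hx => hN hx
    rw [injective_iff_map_eq_zero]
    intro y hy
    obtain ⟨x, rfl⟩ := Submodule.Quotient.mk_surjective N y
    have : Submodule.Quotient.mk (p := N) (F x) = 0 := hy
    exact (Submodule.Quotient.mk_eq_zero N).mpr (h N hN' x ((Submodule.Quotient.mk_eq_zero N).mp this))

variable {n : ℕ}

theorem mem_coboundaries_zero (f : Fin n → R) (c : Cochain f) :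
    c ∈ coboundaries f 0 ↔ c = 0 := Iff.rfl

theorem isAntiNilpotent_of_exact {p : ℕ} [Fact p.Prime] [CharP R p] (f : Fin n → R) (i : ℕ)
    (h : ∀ c ∈ cocycles f i, c ∈ coboundaries f i) : IsAntiNilpotent (frobH p f i) := by
  rw [isAntiNilpotent_iff]
  intro N _ x _
  obtain ⟨c, rfl⟩ := Submodule.Quotient.mk_surjective _ x
  have : Submodule.Quotient.mk (p := cobZ f i) c = 0 :=
    (Submodule.Quotient.mk_eq_zero _).mpr (h c.1 c.2)
  exact Eq.mpr (congrArg (fun z : CechH f i => z ∈ N) this) N.zero_mem

/-- degrees above the number of elements -/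
theorem isAntiNilpotent_of_gt {p : ℕ} [Fact p.Prime] [CharP R p] (f : Fin n → R) (i : ℕ)
    (hi : n < i) : IsAntiNilpotent (frobH p f i) := by
  apply isAntiNilpotent_of_exact
  intro c hc
  have : c = 0 := by
    funext s
    apply hc.1 s
    have := Finset.card_le_univ s
    rw [Fintype.card_fin] at this
    omega
  rw [this]
  exact Submodule.zero_mem _

/-- the top localization -/
abbrev W (f : Fin n → R) : Type v := CLoc f Finset.univ

theorem res_res (f : Fin n → R) {s t u : Finset (Fin n)} (h : s ⊆ t) (h' : t ⊆ u) (z : CLoc f s) :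
    res f h' (res f h z) = res f (h.trans h') z := by
  have : ((res f h').comp (res f h)) = res f (h.trans h') := by
    apply IsLocalization.ringHom_ext (Submonoid.powers (∏ j ∈ s, f j))
    ext r
    simp only [RingHom.comp_apply, res_algebraMap]
  rw [← this]
  rfl

theorem res_rfl (f : Fin n → R) {s : Finset (Fin n)} (h : s ⊆ s) (z : CLoc f s) :
    res f h z = z := by
  have : res f h = RingHom.id _ := by
    apply IsLocalization.ringHom_ext (Submonoid.powers (∏ j ∈ s, f j))
    ext r
    simp only [RingHom.comp_apply, res_algebraMap, RingHom.id_apply]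
  rw [this]
  rfl

/-- image of `R_s` in the top localization -/
theorem mem_range_res (f : Fin n → R) (s : Finset (Fin n)) (w : W f) :
    (∃ z, res f (subset_univ s) z = w) ↔
      ∃ (k : ℕ) (r : R), algebraMap R (W f) ((∏ j ∈ s, f j) ^ k) * w = algebraMap R (W f) r := by
  constructor
  · rintro ⟨z, rfl⟩
    obtain ⟨k, r, h⟩ := IsLocalization.Away.surj (∏ j ∈ s, f j) z
    refine ⟨k, r, ?_⟩
    rw [← res_algebraMap f (subset_univ s), ← map_mul, mul_comm, map_pow, h, res_algebraMap]
  · rintro ⟨k, r, h⟩
    have hu : IsUnit (algebraMap R (CLoc f s) ((∏ j ∈ s, f j) ^ k)) := by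
      rw [map_pow]
      exact (IsLocalization.Away.algebraMap_isUnit _).pow k
    obtain ⟨v, hv⟩ := hu
    refine ⟨algebraMap R _ r * ((v⁻¹ : (CLoc f s)ˣ) : CLoc f s), ?_⟩
    have hu' : IsUnit (algebraMap R (W f) ((∏ j ∈ s, f j) ^ k)) := by
      rw [map_pow]
      exact (isUnit_res f (subset_univ s)).pow k
    apply hu'.mul_left_cancel
    rw [h]
    rw [← res_algebraMap f (subset_univ s), ← map_mul, ← hv]
    rw [mul_left_comm, Units.mul_inv, mul_one, res_algebraMap]

theorem res_injective (f : Fin n → R) (hinj : Function.Injective (algebraMap R (W f)))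
    (s : Finset (Fin n)) : Function.Injective (res f (subset_univ s)) := by
  rw [injective_iff_map_eq_zero]
  intro z hz
  obtain ⟨k, r, h⟩ := IsLocalization.Away.surj (∏ j ∈ s, f j) z
  have : algebraMap R (W f) r = 0 := by
    rw [← res_algebraMap f (subset_univ s), ← h, map_mul, hz, zero_mul]
  have hr : r = 0 := hinj (by rw [this, map_zero])
  rw [hr, map_zero] at h
  have hu : IsUnit (algebraMap R (CLoc f s) (∏ j ∈ s, f j) ^ k) :=
    (IsLocalization.Away.algebraMap_isUnit _).pow k
  exact (hu.mul_left_eq_zero).mp h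

/-- all components mapped to the top localization -/
noncomputable def hat (f : Fin n → R) (c : Cochain f) (s : Finset (Fin n)) : W f :=
  res f (subset_univ s) (c s)

theorem hat_dif (f : Fin n → R) (c : Cochain f) (t : Finset (Fin n)) :
    hat f (dif f c) t = ∑ j ∈ t, (-1) ^ (#{l ∈ t | l < j}) * hat f c (t.erase j) := by
  show res f (subset_univ t) (∑ j ∈ t, (-1) ^ (#{l ∈ t | l < j}) * res f (t.erase_subset j) (c (t.erase j))) = _
  rw [map_sum]
  refine Finset.sum_congr rfl (fun j _ => ?_)
  rw [map_mul, map_pow, map_neg, map_one, res_res]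
  rfl

theorem hat_dif_two [CharP R 2] (f : Fin n → R) (c : Cochain f) (t : Finset (Fin n)) :
    hat f (dif f c) t = ∑ j ∈ t, hat f c (t.erase j) := by
  rw [hat_dif]
  refine Finset.sum_congr rfl (fun j _ => ?_)
  have h : (-1 : W f) = 1 := by
    have h2 : (2 : W f) = 0 := by
      have := map_natCast (algebraMap R (W f)) 2
      rw [CharP.cast_eq_zero, map_zero] at this
      exact_mod_cast this.symm
    linear_combination -h2
  rw [h, one_pow, one_mul]

theorem hat_injective (f : Fin n → R) (hinj : Function.Injective (algebraMap R (W f)))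
    (c c' : Cochain f) (h : hat f c = hat f c') : c = c' := by
  funext s
  exact res_injective f hinj s (congrFun h s)

theorem exists_hat (f : Fin n → R) (w : Finset (Fin n) → W f)
    (hw : ∀ s, ∃ (k : ℕ) (r : R), algebraMap R (W f) ((∏ j ∈ s, f j) ^ k) * w s = algebraMap R (W f) r) :
    ∃ c : Cochain f, hat f c = w := by
  choose c hc using fun s => (mem_range_res f s (w s)).mpr (hw s)
  exact ⟨c, funext hc⟩

theorem hat_zero_iff (f : Fin n → R) (hinj : Function.Injective (algebraMap R (W f)))
    (c : Cochain f) (s : Finset (Fin n)) : hat f c s = 0 ↔ c s = 0 := by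
  constructor
  · intro h
    exact res_injective f hinj s (by rw [map_zero]; exact h)
  · intro h
    show res f _ (c s) = 0
    rw [h, map_zero]

/-! ### the top degree -/

section top
variable {m : ℕ} (f : Fin (m + 1) → R)

theorem single_mem (w : W f) : (Pi.single Finset.univ w : Cochain f) ∈ cocycles f (m + 1) := by
  refine ⟨?_, ?_⟩
  · intro s hs
    apply Pi.single_eq_of_ne
    rintro rfl
    apply hs
    simp
  · show dif f (Pi.single Finset.univ w) = 0
    funext t
    show ∑ j ∈ t, (-1) ^ (#{l ∈ t | l < j}) * res f (t.erase_subset j)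
      ((Pi.single Finset.univ w : Cochain f) (t.erase j)) = 0
    apply Finset.sum_eq_zero
    intro j _
    rw [Pi.single_eq_of_ne, map_zero, mul_zero]
    intro h
    have := Finset.mem_univ j
    rw [← h] at this
    exact Finset.notMem_erase j t this

/-- the map from the top localization onto the top cohomology -/
noncomputable def toH : W f →ₗ[R] CechH f (m + 1) :=
  (Submodule.mkQ _).comp ((LinearMap.single R (fun s => CLoc f s) Finset.univ).codRestrict
    (cocycles f (m + 1)) (fun w => single_mem f w))

theorem toH_surj : Function.Surjective (toH f) := by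
  intro x
  obtain ⟨c, rfl⟩ := Submodule.Quotient.mk_surjective _ x
  refine ⟨c.1 Finset.univ, ?_⟩
  show Submodule.Quotient.mk _ = Submodule.Quotient.mk _
  congr 1
  apply Subtype.ext
  show Pi.single Finset.univ (c.1 Finset.univ) = c.1
  funext s
  by_cases hs : s = Finset.univ
  · subst hs
    rw [Pi.single_eq_same]
  · rw [Pi.single_eq_of_ne hs]
    symm
    apply c.2.1 s
    intro h
    apply hs
    apply Finset.eq_univ_of_card
    rw [h, Fintype.card_fin]

theorem frobH_toH {p : ℕ} [hp : Fact p.Prime] [CharP R p] (w : W f) :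
    frobH p f (m + 1) (toH f w) = toH f (w ^ p) := by
  show Submodule.Quotient.mk _ = Submodule.Quotient.mk _
  congr 1
  apply Subtype.ext
  show (fun s => (Pi.single Finset.univ w : Cochain f) s ^ p) = Pi.single Finset.univ (w ^ p)
  funext s
  by_cases hs : s = Finset.univ
  · subst hs
    rw [Pi.single_eq_same, Pi.single_eq_same]
  · rw [Pi.single_eq_of_ne hs, Pi.single_eq_of_ne hs, zero_pow hp.out.ne_zero]

theorem toH_res (j : Fin (m + 1)) (z : CLoc f (Finset.univ.erase j)) :
    toH f (res f (subset_univ _) z) = 0 := by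
  apply (Submodule.Quotient.mk_eq_zero _).mpr
  show Pi.single Finset.univ (res f (subset_univ _) z) ∈ (deg f m).map (dif f)
  refine ⟨Pi.single (Finset.univ.erase j) ((-1) ^ (#{l ∈ (Finset.univ : Finset (Fin (m + 1))) | l < j}) * z), ?_, ?_⟩
  · intro s hs
    apply Pi.single_eq_of_ne
    rintro rfl
    apply hs
    rw [Finset.card_erase_of_mem (Finset.mem_univ j), Finset.card_univ, Fintype.card_fin]
    rfl
  · funext t
    show ∑ i ∈ t, (-1) ^ (#{l ∈ t | l < i}) * res f (t.erase_subset i)
      ((Pi.single (Finset.univ.erase j) _ : Cochain f) (t.erase i)) = _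
    by_cases ht : t = Finset.univ
    · subst ht
      rw [Finset.sum_eq_single j]
      · rw [Pi.single_eq_same, Pi.single_eq_same, map_mul, map_pow, map_neg, map_one, ← mul_assoc,
          ← mul_pow]
        rw [show (-1 : W f) * -1 = 1 by ring, one_pow, one_mul]
      · intro i _ hi
        rw [Pi.single_eq_of_ne, map_zero, mul_zero]
        intro h
        apply hi
        by_contra h'
        have : i ∈ (Finset.univ : Finset (Fin (m + 1))).erase j := Finset.mem_erase.mpr ⟨hi, Finset.mem_univ i⟩
        rw [← h] at this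
        exact Finset.notMem_erase i _ this
      · intro h
        exact absurd (Finset.mem_univ j) h
    · rw [Pi.single_eq_of_ne ht]
      apply Finset.sum_eq_zero
      intro i hi
      rw [Pi.single_eq_of_ne, map_zero, mul_zero]
      intro h
      apply ht
      apply Finset.eq_univ_of_card
      have h1 := Finset.card_erase_of_mem hi
      rw [h, Finset.card_erase_of_mem (Finset.mem_univ j)] at h1
      have h2 : 0 < t.card := Finset.card_pos.mpr ⟨i, hi⟩
      have h3 : 0 < (Finset.univ : Finset (Fin (m + 1))).card := Finset.card_pos.mpr ⟨j, Finset.mem_univ j⟩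
      have h4 : (Finset.univ : Finset (Fin (m + 1))).card = Fintype.card (Fin (m + 1)) := Finset.card_univ
      omega

/-- the top degree criterion, positive form -/
theorem isAntiNilpotent_top {p : ℕ} [hp : Fact p.Prime] [CharP R p]
    (h : ∀ N : Submodule R (W f),
      (∀ (j : Fin (m + 1)) (w : W f) (k : ℕ) (r : R),
        algebraMap R (W f) ((∏ i ∈ Finset.univ.erase j, f i) ^ k) * w = algebraMap R (W f) r → w ∈ N) →
      (∀ w ∈ N, w ^ p ∈ N) → ∀ w, w ^ p ∈ N → w ∈ N) :
    IsAntiNilpotent (frobH p f (m + 1)) := by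
  rw [isAntiNilpotent_iff]
  intro N hN x hx
  obtain ⟨w, rfl⟩ := toH_surj f x
  refine h (N.comap (toH f)) ?_ ?_ w ?_
  · intro j w k r hw
    obtain ⟨z, rfl⟩ := (mem_range_res f _ w).mpr ⟨k, r, hw⟩
    show toH f _ ∈ N
    rw [toH_res]
    exact N.zero_mem
  · intro w hw
    show toH f (w ^ p) ∈ N
    rw [← frobH_toH]
    exact hN _ hw
  · show toH f (w ^ p) ∈ N
    rw [← frobH_toH]
    exact hx

/-- the top degree criterion, negative form -/
theorem not_isAntiNilpotent_top {p : ℕ} [hp : Fact p.Prime] [CharP R p]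
    (N : Submodule R (W f))
    (h1 : ∀ (j : Fin (m + 1)) (w : W f) (k : ℕ) (r : R),
        algebraMap R (W f) ((∏ i ∈ Finset.univ.erase j, f i) ^ k) * w = algebraMap R (W f) r → w ∈ N)
    (h2 : ∀ w ∈ N, w ^ p ∈ N) (w : W f) (h3 : w ^ p ∈ N) (h4 : w ∉ N) :
    ¬ IsAntiNilpotent (frobH p f (m + 1)) := by
  rw [isAntiNilpotent_iff]
  intro h
  have key := h (N.map (toH f)) ?_ (toH f w) ?_
  · obtain ⟨w', hw', e⟩ := key
    have e1 : toH f (w - w') = 0 := by rw [map_sub, e, sub_self]
    have e1' : (⟨Pi.single Finset.univ (w - w'), single_mem f (w - w')⟩ : cocycles f (m + 1)) ∈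
        (coboundaries f (m + 1)).submoduleOf (cocycles f (m + 1)) :=
      (Submodule.Quotient.mk_eq_zero _).mp e1
    obtain ⟨b, -, hb⟩ : Pi.single Finset.univ (w - w') ∈ (deg f m).map (dif f) := e1'
    have e2 := congrFun hb Finset.univ
    rw [Pi.single_eq_same] at e2
    apply h4
    have : w - w' ∈ N := by
      rw [← e2]
      show ∑ i ∈ Finset.univ, (-1) ^ (#{l ∈ (Finset.univ : Finset (Fin (m + 1))) | l < i}) *
        res f (Finset.univ.erase_subset i) (b (Finset.univ.erase i)) ∈ N
      apply N.sum_mem
      intro i _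
      obtain ⟨k, r, hkr⟩ := (mem_range_res f _ _).mp
        ⟨(-1) ^ (#{l ∈ (Finset.univ : Finset (Fin (m + 1))) | l < i}) * b (Finset.univ.erase i), rfl⟩
      have e3 : res f (Finset.univ.erase_subset i)
          ((-1) ^ (#{l ∈ (Finset.univ : Finset (Fin (m + 1))) | l < i}) * b (Finset.univ.erase i)) =
          (-1) ^ (#{l ∈ (Finset.univ : Finset (Fin (m + 1))) | l < i}) *
            res f (Finset.univ.erase_subset i) (b (Finset.univ.erase i)) := by
        rw [map_mul, map_pow, map_neg, map_one]
      rw [e3] at hkr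
      exact h1 i _ k r hkr
    have := N.add_mem this hw'
    rwa [sub_add_cancel] at this
  · rintro _ ⟨v, hv, rfl⟩
    exact ⟨v ^ p, h2 v hv, (frobH_toH f v).symm⟩
  · exact ⟨w ^ p, h3, (frobH_toH f w).symm⟩

end top

end Pool.Agent.R688.AN.Cech
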