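import Pool.Agent.R688.AN.Cech2

namespace Pool.Agent.R688.AN.Cech
open Finset

theorem cases3 (t : Finset (Fin 3)) : t = ∅ ∨ t = {0} ∨ t = {1} ∨ t = {2} ∨ t = {0, 1} ∨
    t = {0, 2} ∨ t = {1, 2} ∨ t = {0, 1, 2} := by
  revert t; decide

section sums
variable {A : Type*} [AddCommMonoid A] (g : Finset (Fin 3) → A)

theorem s0 : ∑ j ∈ ({0} : Finset (Fin 3)), g (Finset.erase {0} j) = g ∅ := by
  rw [Finset.sum_singleton, show (Finset.erase {0} 0 : Finset (Fin 3)) = ∅ by decide]
theorem s1 : ∑ j ∈ ({1} : Finset (Fin 3)), g (Finset.erase {1} j) = g ∅ := by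
  rw [Finset.sum_singleton, show (Finset.erase {1} 1 : Finset (Fin 3)) = ∅ by decide]
theorem s2 : ∑ j ∈ ({2} : Finset (Fin 3)), g (Finset.erase {2} j) = g ∅ := by
  rw [Finset.sum_singleton, show (Finset.erase {2} 2 : Finset (Fin 3)) = ∅ by decide]
theorem s01 : ∑ j ∈ ({0, 1} : Finset (Fin 3)), g (Finset.erase {0, 1} j) = g {1} + g {0} := by
  rw [Finset.sum_insert (by decide), Finset.sum_singleton,
    show (Finset.erase {0, 1} 0 : Finset (Fin 3)) = {1} by decide,
    show (Finset.erase {0, 1} 1 : Finset (Fin 3)) = {0} by decide]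
theorem s02 : ∑ j ∈ ({0, 2} : Finset (Fin 3)), g (Finset.erase {0, 2} j) = g {2} + g {0} := by
  rw [Finset.sum_insert (by decide), Finset.sum_singleton,
    show (Finset.erase {0, 2} 0 : Finset (Fin 3)) = {2} by decide,
    show (Finset.erase {0, 2} 2 : Finset (Fin 3)) = {0} by decide]
theorem s12 : ∑ j ∈ ({1, 2} : Finset (Fin 3)), g (Finset.erase {1, 2} j) = g {2} + g {1} := by
  rw [Finset.sum_insert (by decide), Finset.sum_singleton,
    show (Finset.erase {1, 2} 1 : Finset (Fin 3)) = {2} by decide,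
    show (Finset.erase {1, 2} 2 : Finset (Fin 3)) = {1} by decide]
theorem s012 : ∑ j ∈ ({0, 1, 2} : Finset (Fin 3)), g (Finset.erase {0, 1, 2} j) =
    g {1, 2} + (g {0, 2} + g {0, 1}) := by
  rw [Finset.sum_insert (by decide), Finset.sum_insert (by decide), Finset.sum_singleton,
    show (Finset.erase {0, 1, 2} 0 : Finset (Fin 3)) = {1, 2} by decide,
    show (Finset.erase {0, 1, 2} 1 : Finset (Fin 3)) = {0, 2} by decide,
    show (Finset.erase {0, 1, 2} 2 : Finset (Fin 3)) = {0, 1} by decide]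
end sums

universe v
variable {R : Type v} [CommRing R] [CharP R 2] (x y u : R)

theorem char_two_W {n : ℕ} (f : Fin n → R) (w : W f) : w + w = 0 := by
  have h2 : (2 : W f) = 0 := by
    have := map_natCast (algebraMap R (W f)) 2
    rw [CharP.cast_eq_zero, map_zero] at this
    exact_mod_cast this.symm
  linear_combination w * h2

theorem char_two_R (w : R) : w + w = 0 := by
  have h2 : (2 : R) = 0 := by exact_mod_cast CharP.cast_eq_zero R 2
  linear_combination w * h2

theorem eq_of_add_zero {n : ℕ} (f : Fin n → R) {a b : W f} (h : a + b = 0) : a = b := by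
  have := char_two_W f b
  linear_combination h - this

variable (hinj : Function.Injective (algebraMap R (W ![x, y, u])))

include hinj in
theorem exact0 (c : Cochain ![x, y, u]) (hc : c ∈ cocycles ![x, y, u] 0) :
    c ∈ coboundaries ![x, y, u] 0 := by
  rw [mem_coboundaries_zero]
  have hd : hat _ (dif _ c) {0} = 0 := by
    rw [show dif _ c = 0 from hc.2]
    show res _ _ ((0 : Cochain ![x, y, u]) {0}) = 0
    rw [zero_apply, map_zero]
  rw [hat_dif_two, s0] at hd
  have h0 := (hat_zero_iff _ hinj c ∅).mp hd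
  funext s
  by_cases hs : s = ∅
  · subst hs; exact h0
  · apply hc.1 s
    rwa [Ne, Finset.card_eq_zero]

theorem hatd (c : Cochain ![x, y, u]) (hc : dif _ c = 0) (t : Finset (Fin 3)) :
    ∑ j ∈ t, hat _ c (t.erase j) = 0 := by
  rw [← hat_dif_two, hc]
  show res _ _ ((0 : Cochain ![x, y, u]) t) = 0
  rw [zero_apply, map_zero]

omit [CharP R 2] in
theorem hat_deg (c : Cochain ![x, y, u]) (i : ℕ) (hc : c ∈ deg _ i) (t : Finset (Fin 3))
    (ht : t.card ≠ i) : hat _ c t = 0 := by
  show res _ _ (c t) = 0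
  rw [hc t ht, map_zero]

omit [CharP R 2] in
theorem unit_of (s : Finset (Fin 3)) (k : ℕ) :
    IsUnit (algebraMap R (W ![x, y, u]) ((∏ j ∈ s, ![x, y, u] j) ^ k)) := by
  rw [map_pow]
  exact (isUnit_res _ (subset_univ s)).pow k

omit [CharP R 2] in
theorem unit_x (k : ℕ) : IsUnit (algebraMap R (W ![x, y, u]) (x ^ k)) := by
  have := unit_of x y u {0} k
  simpa using this
omit [CharP R 2] in
theorem unit_y (k : ℕ) : IsUnit (algebraMap R (W ![x, y, u]) (y ^ k)) := by
  have := unit_of x y u {1} k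
  simpa using this
omit [CharP R 2] in
theorem unit_u (k : ℕ) : IsUnit (algebraMap R (W ![x, y, u]) (u ^ k)) := by
  have := unit_of x y u {2} k
  simpa using this

omit [CharP R 2] in
/-- extraction of a representation with larger exponent -/
theorem rep_mono {n : ℕ} (f : Fin n → R) (g : R) (w : W f) (k K : ℕ) (hK : k ≤ K) (r : R)
    (h : algebraMap R (W f) (g ^ k) * w = algebraMap R (W f) r) :
    algebraMap R (W f) (g ^ K) * w = algebraMap R (W f) (g ^ (K - k) * r) := by
  obtain ⟨l, rfl⟩ := Nat.exists_eq_add_of_le hK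
  rw [map_mul, ← h, show k + l - k = l by omega, pow_add, map_mul]
  ring

omit [CharP R 2] in
theorem rep (c : Cochain ![x, y, u]) (s : Finset (Fin 3)) :
    ∃ (k : ℕ) (r : R), algebraMap R (W ![x, y, u]) ((∏ j ∈ s, ![x, y, u] j) ^ k) * hat _ c s =
      algebraMap R (W ![x, y, u]) r :=
  (mem_range_res _ s _).mp ⟨c s, rfl⟩

include hinj in
theorem exact1 (h1 : ∀ k z, x ^ k ∣ y ^ k * z → x ^ k ∣ z)
    (c : Cochain ![x, y, u]) (hc : c ∈ cocycles ![x, y, u] 1) :
    c ∈ coboundaries ![x, y, u] 1 := by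
  have e01 : hat _ c {1} = hat _ c {0} :=
    eq_of_add_zero _ (by rw [← s01]; exact hatd x y u c hc.2 _)
  have e02 : hat _ c {2} = hat _ c {0} :=
    eq_of_add_zero _ (by rw [← s02]; exact hatd x y u c hc.2 _)
  obtain ⟨k0, r0, hr0⟩ := rep x y u c {0}
  obtain ⟨k1, r1, hr1⟩ := rep x y u c {1}
  rw [Finset.prod_singleton] at hr0 hr1
  have hr0' : algebraMap R (W ![x, y, u]) (x ^ k0) * hat _ c {0} = algebraMap R _ r0 := hr0
  have hr1' : algebraMap R (W ![x, y, u]) (y ^ k1) * hat _ c {0} = algebraMap R _ r1 := by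
    rw [← e01]; exact hr1
  have hx := rep_mono _ _ _ _ (k0 + k1) (by omega) _ hr0'
  have hy := rep_mono _ _ _ _ (k0 + k1) (by omega) _ hr1'
  generalize k0 + k1 = K at hx hy
  generalize x ^ (K - k0) * r0 = r at hx
  generalize y ^ (K - k1) * r1 = r' at hy
  have hrr : y ^ K * r = x ^ K * r' := by
    apply hinj
    rw [map_mul, map_mul, ← hx, ← hy]
    ring
  obtain ⟨g, hg⟩ := h1 K r ⟨r', hrr⟩
  have hw : hat _ c {0} = algebraMap R _ g := by
    apply (unit_x x y u K).mul_left_cancel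
    rw [hx, hg, map_mul]
  obtain ⟨b, hb⟩ := exists_hat ![x, y, u] (fun s => if s = ∅ then algebraMap R _ g else 0) (by
    intro s
    by_cases hs : s = ∅
    · rw [if_pos hs]
      exact ⟨0, g, by rw [pow_zero, map_one, one_mul]⟩
    · rw [if_neg hs]
      exact ⟨0, 0, by rw [mul_zero, map_zero]⟩)
  refine ⟨b, ?_, ?_⟩
  · intro s hs
    rw [← hat_zero_iff _ hinj, hb]
    simp only
    rw [if_neg]
    rintro rfl
    exact hs rfl
  · apply hat_injective _ hinj
    funext t
    rw [hat_dif_two]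
    have hc0 := hat_deg x y u c 1 hc.1
    rcases cases3 t with rfl | rfl | rfl | rfl | rfl | rfl | rfl | rfl
    · rw [Finset.sum_empty, hc0 _ (by decide)]
    · rw [s0, hb, hw]; rfl
    · rw [s1, hb, e01, hw]; rfl
    · rw [s2, hb, e02, hw]; rfl
    · rw [s01, hb, hc0 _ (by decide)]
      simp only
      rw [if_neg (by decide), if_neg (by decide), add_zero]
    · rw [s02, hb, hc0 _ (by decide)]
      simp only
      rw [if_neg (by decide), if_neg (by decide), add_zero]
    · rw [s12, hb, hc0 _ (by decide)]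
      simp only
      rw [if_neg (by decide), if_neg (by decide), add_zero]
    · rw [s012, hb, hc0 _ (by decide)]
      simp only
      rw [if_neg (by decide), if_neg (by decide), if_neg (by decide), add_zero, add_zero]

include hinj in
theorem exact2 (hx0 : ∀ z, x * z = 0 → z = 0) (h1 : ∀ k z, x ^ k ∣ y ^ k * z → x ^ k ∣ z)
    (h2 : ∀ k z a b, u ^ k * z = x ^ k * a + y ^ k * b → ∃ a' b', z = x ^ k * a' + y ^ k * b')
    (c : Cochain ![x, y, u]) (hc : c ∈ cocycles ![x, y, u] 2) :
    c ∈ coboundaries ![x, y, u] 2 := by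
  have e : hat _ c {1, 2} + (hat _ c {0, 2} + hat _ c {0, 1}) = 0 := by
    rw [← s012]; exact hatd x y u c hc.2 _
  obtain ⟨k0, r0, hr0⟩ := rep x y u c {0, 1}
  obtain ⟨k1, r1, hr1⟩ := rep x y u c {0, 2}
  obtain ⟨k2, r2, hr2⟩ := rep x y u c {1, 2}
  rw [Finset.prod_pair (by decide)] at hr0 hr1 hr2
  have ha := rep_mono _ _ _ _ (k0 + k1 + k2) (by omega) _ hr0
  have hb := rep_mono _ _ _ _ (k0 + k1 + k2) (by omega) _ hr1
  have hg := rep_mono _ _ _ _ (k0 + k1 + k2) (by omega) _ hr2
  generalize k0 + k1 + k2 = K at ha hb hg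
  generalize (![x, y, u] 0 * ![x, y, u] 1) ^ (K - k0) * r0 = α at ha
  generalize (![x, y, u] 0 * ![x, y, u] 2) ^ (K - k1) * r1 = β at hb
  generalize (![x, y, u] 1 * ![x, y, u] 2) ^ (K - k2) * r2 = γ at hg
  have ha' : algebraMap R (W ![x, y, u]) ((x * y) ^ K) * hat _ c {0, 1} = algebraMap R _ α := ha
  have hb' : algebraMap R (W ![x, y, u]) ((x * u) ^ K) * hat _ c {0, 2} = algebraMap R _ β := hb
  have hg' : algebraMap R (W ![x, y, u]) ((y * u) ^ K) * hat _ c {1, 2} = algebraMap R _ γ := hg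
  clear ha hb hg hr0 hr1 hr2
  rw [mul_pow, map_mul] at ha' hb' hg'
  have hrel : u ^ K * α + y ^ K * β + x ^ K * γ = 0 := by
    apply hinj
    rw [map_add, map_add, map_mul, map_mul, map_mul, ← ha', ← hb', ← hg', map_zero]
    linear_combination (algebraMap R _ (x ^ K) * algebraMap R _ (y ^ K) * algebraMap R _ (u ^ K)) * e
  have htwo : (2 : R) = 0 := by exact_mod_cast CharP.cast_eq_zero R 2
  obtain ⟨α₁, α₂, hα⟩ := h2 K α γ β (by linear_combination hrel - (y ^ K * β + x ^ K * γ) * htwo)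
  obtain ⟨δ, hδ⟩ := h1 K (u ^ K * α₂ + β) ⟨u ^ K * α₁ + γ, by
    rw [hα] at hrel
    linear_combination hrel - (x ^ K * (u ^ K * α₁ + γ)) * htwo⟩
  have hxk : ∀ k z, x ^ k * z = 0 → z = 0 := by
    intro k
    induction k with
    | zero => intro z hz; rwa [pow_zero, one_mul] at hz
    | succ k ih =>
      intro z hz
      apply ih
      apply hx0
      rw [← mul_assoc, ← pow_succ']; exact hz
  have hγ : γ = u ^ K * α₁ + y ^ K * δ := by
    have : x ^ K * (γ - (u ^ K * α₁ + y ^ K * δ)) = 0 := by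
      rw [hα] at hrel
      linear_combination hrel - y ^ K * hδ - (x ^ K * u ^ K * α₁ + y ^ K * x ^ K * δ) * htwo
    exact sub_eq_zero.mp (hxk K _ this)
  have hβ : β = u ^ K * α₂ + x ^ K * δ := by
    linear_combination hδ - u ^ K * α₂ * htwo
  -- inverses
  obtain ⟨vx, hvx⟩ := unit_x x y u K
  obtain ⟨vy, hvy⟩ := unit_y x y u K
  obtain ⟨vu, hvu⟩ := unit_u x y u K
  have ix : algebraMap R (W ![x, y, u]) (x ^ K) * ↑vx⁻¹ = 1 := by rw [← hvx]; exact vx.mul_inv
  have iy : algebraMap R (W ![x, y, u]) (y ^ K) * ↑vy⁻¹ = 1 := by rw [← hvy]; exact vy.mul_inv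
  have iu : algebraMap R (W ![x, y, u]) (u ^ K) * ↑vu⁻¹ = 1 := by rw [← hvu]; exact vu.mul_inv
  obtain ⟨b, hb⟩ := exists_hat ![x, y, u] (fun s =>
      if s = {0} then algebraMap R _ α₂ * ↑vx⁻¹ else
      if s = {1} then algebraMap R _ α₁ * ↑vy⁻¹ else
      if s = {2} then algebraMap R _ δ * ↑vu⁻¹ else 0) (by
    intro s
    by_cases hs : s = {0}
    · rw [if_pos hs, hs, Finset.prod_singleton]
      refine ⟨K, α₂, ?_⟩
      show algebraMap R _ (x ^ K) * _ = _
      linear_combination (algebraMap R _ α₂) * ix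
    rw [if_neg hs]
    by_cases hs : s = {1}
    · rw [if_pos hs, hs, Finset.prod_singleton]
      refine ⟨K, α₁, ?_⟩
      show algebraMap R _ (y ^ K) * _ = _
      linear_combination (algebraMap R _ α₁) * iy
    rw [if_neg hs]
    by_cases hs : s = {2}
    · rw [if_pos hs, hs, Finset.prod_singleton]
      refine ⟨K, δ, ?_⟩
      show algebraMap R _ (u ^ K) * _ = _
      linear_combination (algebraMap R _ δ) * iu
    rw [if_neg hs]
    exact ⟨0, 0, by rw [mul_zero, map_zero]⟩)
  have hb0 : hat _ b {0} = algebraMap R _ α₂ * ↑vx⁻¹ := by rw [hb]; exact if_pos rfl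
  have hb1 : hat _ b {1} = algebraMap R _ α₁ * ↑vy⁻¹ := by
    rw [hb]; exact (if_neg (by decide)).trans (if_pos rfl)
  have hb2 : hat _ b {2} = algebraMap R _ δ * ↑vu⁻¹ := by
    rw [hb]; exact (if_neg (by decide)).trans ((if_neg (by decide)).trans (if_pos rfl))
  have hbn : ∀ s : Finset (Fin 3), s.card ≠ 1 → hat _ b s = 0 := by
    intro s hs
    rw [hb]
    exact (if_neg (by rintro rfl; exact hs rfl)).trans ((if_neg (by rintro rfl; exact hs rfl)).trans
      (if_neg (by rintro rfl; exact hs rfl)))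
  refine ⟨b, ?_, ?_⟩
  · intro s hs
    rw [← hat_zero_iff _ hinj]
    exact hbn s hs
  · apply hat_injective _ hinj
    funext t
    rw [hat_dif_two]
    have hc0 := hat_deg x y u c 2 hc.1
    rcases cases3 t with rfl | rfl | rfl | rfl | rfl | rfl | rfl | rfl
    · rw [Finset.sum_empty, hc0 _ (by decide)]
    · rw [s0, hbn _ (by decide), hc0 _ (by decide)]
    · rw [s1, hbn _ (by decide), hc0 _ (by decide)]
    · rw [s2, hbn _ (by decide), hc0 _ (by decide)]
    · rw [s01, hb0, hb1]
      apply ((unit_x x y u K).mul (unit_y x y u K)).mul_left_cancel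
      rw [ha', hα, map_add, map_mul, map_mul]
      linear_combination (algebraMap R _ (x ^ K) * algebraMap R _ α₁) * iy +
        (algebraMap R _ (y ^ K) * algebraMap R _ α₂) * ix
    · rw [s02, hb0, hb2]
      apply ((unit_x x y u K).mul (unit_u x y u K)).mul_left_cancel
      rw [hb', hβ, map_add, map_mul, map_mul]
      linear_combination (algebraMap R _ (x ^ K) * algebraMap R _ δ) * iu +
        (algebraMap R _ (u ^ K) * algebraMap R _ α₂) * ix
    · rw [s12, hb1, hb2]
      apply ((unit_y x y u K).mul (unit_u x y u K)).mul_left_cancel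
      rw [hg', hγ, map_add, map_mul, map_mul]
      linear_combination (algebraMap R _ (y ^ K) * algebraMap R _ δ) * iu +
        (algebraMap R _ (u ^ K) * algebraMap R _ α₁) * iy
    · rw [s012, hbn _ (by decide), hbn _ (by decide), hbn _ (by decide), hc0 _ (by decide),
        add_zero, add_zero]

end Pool.Agent.R688.AN.Cech
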