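import Mathlib

/-! Combinatorial model of the top local cohomology of a regular local ring of
dimension three over the field with two elements. -/

namespace Pool.Agent.R688.AN

abbrev I3 := ℕ × ℕ × ℕ
abbrev E := I3 →₀ ZMod 2

def sx : I3 → I3 := fun i => (i.1 + 1, i.2.1, i.2.2)
def sy : I3 → I3 := fun i => (i.1, i.2.1 + 1, i.2.2)
def su : I3 → I3 := fun i => (i.1, i.2.1, i.2.2 + 1)
def fr : I3 → I3 := fun i => (2 * i.1 + 1, 2 * i.2.1 + 1, 2 * i.2.2 + 1)

theorem sx_inj : Function.Injective sx := by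
  rintro ⟨a, b, c⟩ ⟨a', b', c'⟩ h
  simp only [sx, Prod.mk.injEq] at h ⊢
  omega
theorem sy_inj : Function.Injective sy := by
  rintro ⟨a, b, c⟩ ⟨a', b', c'⟩ h
  simp only [sy, Prod.mk.injEq] at h ⊢
  omega
theorem su_inj : Function.Injective su := by
  rintro ⟨a, b, c⟩ ⟨a', b', c'⟩ h
  simp only [su, Prod.mk.injEq] at h ⊢
  omega
theorem fr_inj : Function.Injective fr := by
  rintro ⟨a, b, c⟩ ⟨a', b', c'⟩ h
  simp only [fr, Prod.mk.injEq] at h ⊢
  omega

noncomputable def X : E →+ E := Finsupp.comapDomain.addMonoidHom sx_inj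
noncomputable def Y : E →+ E := Finsupp.comapDomain.addMonoidHom sy_inj
noncomputable def U : E →+ E := Finsupp.comapDomain.addMonoidHom su_inj
noncomputable def F : E →+ E := Finsupp.mapDomain.addMonoidHom fr

theorem X_apply (e : E) (a b c : ℕ) : X e (a, b, c) = e (a + 1, b, c) := rfl
theorem Y_apply (e : E) (a b c : ℕ) : Y e (a, b, c) = e (a, b + 1, c) := rfl
theorem U_apply (e : E) (a b c : ℕ) : U e (a, b, c) = e (a, b, c + 1) := rfl
theorem F_apply (e : E) (a b c : ℕ) : F e (2 * a + 1, 2 * b + 1, 2 * c + 1) = e (a, b, c) :=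
  Finsupp.mapDomain_apply fr_inj e (a, b, c)
theorem F_notin (e : E) (a b c : ℕ) (h : a % 2 = 0 ∨ b % 2 = 0 ∨ c % 2 = 0) :
    F e (a, b, c) = 0 := by
  apply Finsupp.mapDomain_of_notMem_range
  rintro ⟨⟨a', b', c'⟩, h'⟩
  simp only [fr, Prod.mk.injEq] at h'
  omega

/-- monomials -/
noncomputable def mm (a b c : ℕ) : E := Finsupp.single (a, b, c) 1

theorem mm_apply (a b c a' b' c' : ℕ) :
    mm a b c (a', b', c') = if a = a' ∧ b = b' ∧ c = c' then 1 else 0 := by
  unfold mm
  rw [Finsupp.single_apply]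
  simp only [Prod.mk.injEq]

theorem X_mm_succ (a b c : ℕ) : X (mm (a + 1) b c) = mm a b c := by
  ext ⟨a', b', c'⟩
  rw [X_apply, mm_apply, mm_apply]
  simp
theorem X_mm_zero (b c : ℕ) : X (mm 0 b c) = 0 := by
  ext ⟨a', b', c'⟩
  rw [X_apply, mm_apply]
  simp
theorem Y_mm_succ (a b c : ℕ) : Y (mm a (b + 1) c) = mm a b c := by
  ext ⟨a', b', c'⟩
  rw [Y_apply, mm_apply, mm_apply]
  simp
theorem Y_mm_zero (a c : ℕ) : Y (mm a 0 c) = 0 := by
  ext ⟨a', b', c'⟩
  rw [Y_apply, mm_apply]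
  simp
theorem U_mm_succ (a b c : ℕ) : U (mm a b (c + 1)) = mm a b c := by
  ext ⟨a', b', c'⟩
  rw [U_apply, mm_apply, mm_apply]
  simp
theorem U_mm_zero (a b : ℕ) : U (mm a b 0) = 0 := by
  ext ⟨a', b', c'⟩
  rw [U_apply, mm_apply]
  simp
theorem F_mm (a b c : ℕ) : F (mm a b c) = mm (2 * a + 1) (2 * b + 1) (2 * c + 1) := by
  unfold mm F
  simp [Finsupp.mapDomain_single, fr]

theorem XY (e : E) : X (Y e) = Y (X e) := by ext ⟨a, b, c⟩; rfl
theorem XU (e : E) : X (U e) = U (X e) := by ext ⟨a, b, c⟩; rfl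
theorem YU (e : E) : Y (U e) = U (Y e) := by ext ⟨a, b, c⟩; rfl

theorem ind (P : E → Prop) (h0 : P 0) (ha : ∀ e e', P e → P e' → P (e + e'))
    (hm : ∀ a b c, P (mm a b c)) (e : E) : P e := by
  induction e using Finsupp.induction_linear with
  | zero => exact h0
  | add f g hf hg => exact ha f g hf hg
  | single i r =>
    obtain ⟨a, b, c⟩ := i
    have : r = 0 ∨ r = 1 := by revert r; decide
    rcases this with rfl | rfl
    · rw [Finsupp.single_zero]; exact h0
    · exact hm a b c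

theorem FX (e : E) : F (X e) = X (X (F e)) := by
  refine ind (fun e => F (X e) = X (X (F e))) (by simp) (by intro e e' h h'; simp only [map_add, h, h']) ?_ e
  intro a b c
  rcases a with _ | a
  · rw [X_mm_zero, F_mm, X_mm_succ, X_mm_zero, map_zero]
  · rw [X_mm_succ, F_mm, F_mm, X_mm_succ, show 2 * (a + 1) = (2 * a + 1) + 1 by ring, X_mm_succ]
theorem FY (e : E) : F (Y e) = Y (Y (F e)) := by
  refine ind (fun e => F (Y e) = Y (Y (F e))) (by simp) (by intro e e' h h'; simp only [map_add, h, h']) ?_ e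
  intro a b c
  rcases b with _ | b
  · rw [Y_mm_zero, F_mm, Y_mm_succ, Y_mm_zero, map_zero]
  · rw [Y_mm_succ, F_mm, F_mm, Y_mm_succ, show 2 * (b + 1) = (2 * b + 1) + 1 by ring, Y_mm_succ]
theorem FU (e : E) : F (U e) = U (U (F e)) := by
  refine ind (fun e => F (U e) = U (U (F e))) (by simp) (by intro e e' h h'; simp only [map_add, h, h']) ?_ e
  intro a b c
  rcases c with _ | c
  · rw [U_mm_zero, F_mm, U_mm_succ, U_mm_zero, map_zero]
  · rw [U_mm_succ, F_mm, F_mm, U_mm_succ, show 2 * (c + 1) = (2 * c + 1) + 1 by ring, U_mm_succ]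

/-- bound on the support -/
theorem exists_bound (e : E) : ∃ n, ∀ a b c, (n ≤ a ∨ n ≤ b ∨ n ≤ c) → e (a, b, c) = 0 := by
  refine ind (fun e => ∃ n, ∀ a b c, (n ≤ a ∨ n ≤ b ∨ n ≤ c) → e (a, b, c) = 0)
    ⟨0, by simp⟩ ?_ ?_ e
  · rintro e e' ⟨n, hn⟩ ⟨n', hn'⟩
    refine ⟨max n n', fun a b c h => ?_⟩
    rw [Finsupp.add_apply, hn a b c (by omega), hn' a b c (by omega), add_zero]
  · intro a b c
    refine ⟨a + b + c + 1, fun a' b' c' h => ?_⟩
    rw [mm_apply, if_neg]
    omega

theorem X_iter (n : ℕ) (e : E) (a b c : ℕ) : (X^[n] e) (a, b, c) = e (a + n, b, c) := by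
  induction n generalizing a with
  | zero => rfl
  | succ n ih =>
    rw [Function.iterate_succ_apply', X_apply, ih]
    congr 2
    omega
theorem Y_iter (n : ℕ) (e : E) (a b c : ℕ) : (Y^[n] e) (a, b, c) = e (a, b + n, c) := by
  induction n generalizing b with
  | zero => rfl
  | succ n ih =>
    rw [Function.iterate_succ_apply', Y_apply, ih]
    congr 3
    omega
theorem U_iter (n : ℕ) (e : E) (a b c : ℕ) : (U^[n] e) (a, b, c) = e (a, b, c + n) := by
  induction n generalizing c with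
  | zero => rfl
  | succ n ih =>
    rw [Function.iterate_succ_apply', U_apply, ih]
    congr 3
    omega

/-- abstract: last nonzero iterate -/
theorem last_iter {V : Type*} [AddCommGroup V] (T : V →+ V) (v : V) (hv : v ≠ 0)
    (hn : ∃ n, T^[n] v = 0) : ∃ k, T^[k] v ≠ 0 ∧ T (T^[k] v) = 0 := by
  classical
  have h0 : Nat.find hn ≠ 0 := by
    intro h
    have := Nat.find_spec hn
    rw [h] at this
    exact hv this
  obtain ⟨k, hk⟩ := Nat.exists_eq_succ_of_ne_zero h0
  refine ⟨k, Nat.find_min hn (by omega), ?_⟩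
  have := Nat.find_spec hn
  rw [hk, Function.iterate_succ_apply'] at this
  exact this

theorem iter_mem {V : Type*} [AddCommGroup V] (T : V →+ V) (N : AddSubgroup V)
    (hT : ∀ v ∈ N, T v ∈ N) (k : ℕ) (v : V) (hv : v ∈ N) : T^[k] v ∈ N := by
  induction k with
  | zero => exact hv
  | succ k ih => rw [Function.iterate_succ_apply']; exact hT _ ih

theorem iter_ker {V : Type*} [AddCommGroup V] (T S : V →+ V)
    (hTS : ∀ v, S (T v) = T (S v)) (k : ℕ) (v : V) (hv : S v = 0) : S (T^[k] v) = 0 := by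
  induction k with
  | zero => exact hv
  | succ k ih => rw [Function.iterate_succ_apply', hTS, ih, map_zero]

/-- abstract socle lemma -/
theorem exists_socle {V : Type*} [AddCommGroup V] (A B C : V →+ V)
    (hAB : ∀ v, A (B v) = B (A v)) (hAC : ∀ v, A (C v) = C (A v)) (hBC : ∀ v, B (C v) = C (B v))
    (hA : ∀ v, ∃ n, A^[n] v = 0) (hB : ∀ v, ∃ n, B^[n] v = 0) (hC : ∀ v, ∃ n, C^[n] v = 0)
    (N : AddSubgroup V) (hNA : ∀ v ∈ N, A v ∈ N) (hNB : ∀ v ∈ N, B v ∈ N)
    (hNC : ∀ v ∈ N, C v ∈ N) (v : V) (hv : v ≠ 0) (hvN : v ∈ N) :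
    ∃ w ∈ N, w ≠ 0 ∧ A w = 0 ∧ B w = 0 ∧ C w = 0 := by
  obtain ⟨i, hi, hi'⟩ := last_iter A v hv (hA v)
  obtain ⟨j, hj, hj'⟩ := last_iter B _ hi (hB _)
  obtain ⟨k, hk, hk'⟩ := last_iter C _ hj (hC _)
  refine ⟨_, iter_mem C N hNC k _ (iter_mem B N hNB j _ (iter_mem A N hNA i v hvN)), hk, ?_, ?_, hk'⟩
  · exact iter_ker C A hAC k _ (iter_ker B A hAB j _ hi')
  · exact iter_ker C B hBC k _ hj'

theorem X_nil (e : E) : ∃ n, X^[n] e = 0 := by
  obtain ⟨n, hn⟩ := exists_bound e
  refine ⟨n, ?_⟩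
  ext ⟨a, b, c⟩
  rw [X_iter]
  exact hn _ _ _ (by omega)
theorem Y_nil (e : E) : ∃ n, Y^[n] e = 0 := by
  obtain ⟨n, hn⟩ := exists_bound e
  refine ⟨n, ?_⟩
  ext ⟨a, b, c⟩
  rw [Y_iter]
  exact hn _ _ _ (by omega)
theorem U_nil (e : E) : ∃ n, U^[n] e = 0 := by
  obtain ⟨n, hn⟩ := exists_bound e
  refine ⟨n, ?_⟩
  ext ⟨a, b, c⟩
  rw [U_iter]
  exact hn _ _ _ (by omega)

theorem socle_eq (e : E) (hX : X e = 0) (hY : Y e = 0) (hU : U e = 0) :
    e = 0 ∨ e = mm 0 0 0 := by
  have key : ∀ a b c, ¬ (a = 0 ∧ b = 0 ∧ c = 0) → e (a, b, c) = 0 := by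
    intro a b c h
    rcases a with _ | a
    · rcases b with _ | b
      · rcases c with _ | c
        · exact absurd ⟨rfl, rfl, rfl⟩ h
        · rw [← U_apply, hU]; rfl
      · rw [← Y_apply, hY]; rfl
    · rw [← X_apply, hX]; rfl
  have : e (0, 0, 0) = 0 ∨ e (0, 0, 0) = 1 := by
    generalize e (0, 0, 0) = r
    revert r; decide
  rcases this with h | h
  · left
    ext ⟨a, b, c⟩
    by_cases h' : a = 0 ∧ b = 0 ∧ c = 0
    · obtain ⟨rfl, rfl, rfl⟩ := h'
      rw [h]; rfl
    · rw [key a b c h']; rfl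
  · right
    ext ⟨a, b, c⟩
    rw [mm_apply]
    by_cases h' : a = 0 ∧ b = 0 ∧ c = 0
    · obtain ⟨rfl, rfl, rfl⟩ := h'
      rw [h]; simp
    · rw [key a b c h', if_neg]
      omega

/-- an element whose monomials all lie in `N` lies in `N` -/
theorem mem_of_mm (N : AddSubgroup E) (e : E)
    (h : ∀ a b c, e (a, b, c) ≠ 0 → mm a b c ∈ N) : e ∈ N := by
  rw [← Finsupp.sum_single e]
  unfold Finsupp.sum
  apply AddSubgroup.sum_mem
  rintro ⟨a, b, c⟩ hi
  have h1 : e (a, b, c) ≠ 0 := Finsupp.mem_support_iff.mp hi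
  have h2 : e (a, b, c) = 1 := by
    generalize e (a, b, c) = r at h1 ⊢
    revert r; decide
  rw [h2]
  exact h a b c h1

/-- `AN` for the operator data -/
def ANil {V : Type*} [AddCommGroup V] (A B C : V →+ V) (G : V → V) : Prop :=
  ∀ N : AddSubgroup V, (∀ v ∈ N, A v ∈ N) → (∀ v ∈ N, B v ∈ N) → (∀ v ∈ N, C v ∈ N) →
    (∀ v ∈ N, G v ∈ N) → ∀ v, G v ∈ N → v ∈ N

theorem AN_E : ANil X Y U F := by
  intro N hX hY hU hF v hv
  by_cases hN : ∃ w ∈ N, w ≠ 0
  · obtain ⟨w, hw, hw0⟩ := hN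
    obtain ⟨s, hs, hs0, hsX, hsY, hsU⟩ := exists_socle X Y U XY XU YU X_nil Y_nil U_nil N hX hY hU w hw0 hw
    have hs' : mm 0 0 0 ∈ N := by
      rcases socle_eq s hsX hsY hsU with h | h
      · exact absurd h hs0
      · rw [← h]; exact hs
    have hbig : ∀ n, ∃ m, n ≤ m ∧ mm m m m ∈ N := by
      intro n
      induction n with
      | zero => exact ⟨0, le_refl _, hs'⟩
      | succ n ih =>
        obtain ⟨m, hm, hm'⟩ := ih
        refine ⟨2 * m + 1, by omega, ?_⟩
        rw [← F_mm]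
        exact hF _ hm'
    have hall : ∀ a b c, mm a b c ∈ N := by
      intro a b c
      obtain ⟨m, hm, hm'⟩ := hbig (a + b + c)
      have h1 : ∀ k ≤ m, mm (m - k) m m ∈ N := by
        intro k
        induction k with
        | zero => intro _; exact hm'
        | succ k ih =>
          intro hk
          rw [← X_mm_succ]
          apply hX
          rw [show m - (k + 1) + 1 = m - k by omega]
          exact ih (by omega)
      have h2 : ∀ k ≤ m, mm a (m - k) m ∈ N := by
        intro k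
        induction k with
        | zero =>
          intro _
          have := h1 (m - a) (by omega)
          rwa [show m - (m - a) = a by omega] at this
        | succ k ih =>
          intro hk
          rw [← Y_mm_succ]
          apply hY
          rw [show m - (k + 1) + 1 = m - k by omega]
          exact ih (by omega)
      have h3 : ∀ k ≤ m, mm a b (m - k) ∈ N := by
        intro k
        induction k with
        | zero =>
          intro _
          have := h2 (m - b) (by omega)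
          rwa [show m - (m - b) = b by omega] at this
        | succ k ih =>
          intro hk
          rw [← U_mm_succ]
          apply hU
          rw [show m - (k + 1) + 1 = m - k by omega]
          exact ih (by omega)
      have := h3 (m - c) (by omega)
      rwa [show m - (m - c) = c by omega] at this
    exact mem_of_mm N v (fun a b c _ => hall a b c)
  · push Not at hN
    have h0 : F v = 0 := hN _ hv
    have : v = 0 := by
      ext ⟨a, b, c⟩
      rw [← F_apply, h0]; rfl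
    rw [this]
    exact N.zero_mem

end Pool.Agent.R688.AN
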