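import Pool.Agent.R688.AN.Comb1

namespace Pool.Agent.R688.AN

/-- the operators on the two-term part -/
noncomputable def X2 : E × E →+ E × E := X.prodMap X
noncomputable def Y2 : E × E →+ E × E := Y.prodMap Y
noncomputable def U2 : E × E →+ E × E := U.prodMap U
/-- `φ (g p + h q) = x² F(h) p + (F(g) + y F(h)) q` -/
noncomputable def phi : E × E →+ E × E where
  toFun v := (X (X (F v.2)), F v.1 + Y (F v.2))
  map_zero' := by simp
  map_add' v w := by
    ext1
    · simp
    · simp only [Prod.snd_add, Prod.fst_add, map_add]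
      abel

theorem X2_apply (v : E × E) : X2 v = (X v.1, X v.2) := rfl
theorem Y2_apply (v : E × E) : Y2 v = (Y v.1, Y v.2) := rfl
theorem U2_apply (v : E × E) : U2 v = (U v.1, U v.2) := rfl
theorem phi_apply (v : E × E) : phi v = (X (X (F v.2)), F v.1 + Y (F v.2)) := rfl

theorem X2_iter (n : ℕ) (v : E × E) : X2^[n] v = (X^[n] v.1, X^[n] v.2) := by
  induction n with
  | zero => rfl
  | succ n ih => rw [Function.iterate_succ_apply', ih, Function.iterate_succ_apply',
      Function.iterate_succ_apply']; rfl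
theorem Y2_iter (n : ℕ) (v : E × E) : Y2^[n] v = (Y^[n] v.1, Y^[n] v.2) := by
  induction n with
  | zero => rfl
  | succ n ih => rw [Function.iterate_succ_apply', ih, Function.iterate_succ_apply',
      Function.iterate_succ_apply']; rfl
theorem U2_iter (n : ℕ) (v : E × E) : U2^[n] v = (U^[n] v.1, U^[n] v.2) := by
  induction n with
  | zero => rfl
  | succ n ih => rw [Function.iterate_succ_apply', ih, Function.iterate_succ_apply',
      Function.iterate_succ_apply']; rfl

theorem iter_zero_of_le {V : Type*} [AddCommGroup V] (T : V →+ V) (v : V) (n m : ℕ) (h : n ≤ m)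
    (hn : T^[n] v = 0) : T^[m] v = 0 := by
  obtain ⟨k, rfl⟩ := Nat.exists_eq_add_of_le h
  rw [Nat.add_comm, Function.iterate_add_apply, hn]
  clear h hn
  induction k with
  | zero => rfl
  | succ k ih => rw [Function.iterate_succ_apply', ih, map_zero]

theorem X2_nil (v : E × E) : ∃ n, X2^[n] v = 0 := by
  obtain ⟨n, hn⟩ := X_nil v.1
  obtain ⟨m, hm⟩ := X_nil v.2
  refine ⟨max n m, ?_⟩
  rw [X2_iter, iter_zero_of_le X _ n _ (le_max_left _ _) hn,
    iter_zero_of_le X _ m _ (le_max_right _ _) hm]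
  rfl
theorem Y2_nil (v : E × E) : ∃ n, Y2^[n] v = 0 := by
  obtain ⟨n, hn⟩ := Y_nil v.1
  obtain ⟨m, hm⟩ := Y_nil v.2
  refine ⟨max n m, ?_⟩
  rw [Y2_iter, iter_zero_of_le Y _ n _ (le_max_left _ _) hn,
    iter_zero_of_le Y _ m _ (le_max_right _ _) hm]
  rfl
theorem U2_nil (v : E × E) : ∃ n, U2^[n] v = 0 := by
  obtain ⟨n, hn⟩ := U_nil v.1
  obtain ⟨m, hm⟩ := U_nil v.2
  refine ⟨max n m, ?_⟩
  rw [U2_iter, iter_zero_of_le U _ n _ (le_max_left _ _) hn,
    iter_zero_of_le U _ m _ (le_max_right _ _) hm]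
  rfl

theorem XY2 (v : E × E) : X2 (Y2 v) = Y2 (X2 v) := by
  rw [X2_apply, Y2_apply, X2_apply, Y2_apply, XY, XY]
theorem XU2 (v : E × E) : X2 (U2 v) = U2 (X2 v) := by
  rw [X2_apply, U2_apply, X2_apply, U2_apply, XU, XU]
theorem YU2 (v : E × E) : Y2 (U2 v) = U2 (Y2 v) := by
  rw [Y2_apply, U2_apply, Y2_apply, U2_apply, YU, YU]

theorem phi_U (v : E × E) : phi (U2 v) = U2 (U2 (phi v)) := by
  simp only [phi_apply, U2_apply]
  ext1
  · simp only [FU, XU]
  · simp only [FU, map_add, YU]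

/-- `mm a b c` times the first basis vector -/
noncomputable def mp (a b c : ℕ) : E × E := (mm a b c, 0)
/-- `mm a b c` times the second basis vector -/
noncomputable def mq (a b c : ℕ) : E × E := (0, mm a b c)

theorem phi_mp (a b c : ℕ) : phi (mp a b c) = mq (2 * a + 1) (2 * b + 1) (2 * c + 1) := by
  rw [phi_apply]
  simp [mp, mq, F_mm]
theorem phi_mq_succ (a b c : ℕ) : phi (mq (a + 1) b c) =
    mp (2 * a + 1) (2 * b + 1) (2 * c + 1) + mq (2 * a + 3) (2 * b) (2 * c + 1) := by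
  rw [phi_apply]
  simp only [mp, mq, F_mm, map_zero, zero_add, Prod.mk_add_mk, add_zero, Y_mm_succ]
  rw [show 2 * (a + 1) + 1 = (2 * a + 1) + 1 + 1 by ring, X_mm_succ, X_mm_succ]
theorem phi_mq_zero (b c : ℕ) : phi (mq 0 b c) = mq 1 (2 * b) (2 * c + 1) := by
  rw [phi_apply]
  simp only [mq, F_mm, map_zero, zero_add, Y_mm_succ]
  rw [show 2 * 0 + 1 = 0 + 1 by ring, X_mm_succ, X_mm_zero]

section
variable (N : AddSubgroup (E × E)) (hX : ∀ v ∈ N, X2 v ∈ N) (hY : ∀ v ∈ N, Y2 v ∈ N)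
  (hU : ∀ v ∈ N, U2 v ∈ N)

include hX in
theorem mp_X (a a' b c : ℕ) (h : a' ≤ a) (hm : mp a b c ∈ N) : mp a' b c ∈ N := by
  obtain ⟨k, rfl⟩ := Nat.exists_eq_add_of_le h
  clear h
  induction k with
  | zero => exact hm
  | succ k ih =>
    apply ih
    have := hX _ hm
    rwa [X2_apply, mp, show a' + (k + 1) = (a' + k) + 1 by ring, X_mm_succ, map_zero] at this
include hX in
theorem mq_X (a a' b c : ℕ) (h : a' ≤ a) (hm : mq a b c ∈ N) : mq a' b c ∈ N := by
  obtain ⟨k, rfl⟩ := Nat.exists_eq_add_of_le h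
  clear h
  induction k with
  | zero => exact hm
  | succ k ih =>
    apply ih
    have := hX _ hm
    rwa [X2_apply, mq, show a' + (k + 1) = (a' + k) + 1 by ring, X_mm_succ, map_zero] at this
include hY in
theorem mp_Y (a b b' c : ℕ) (h : b' ≤ b) (hm : mp a b c ∈ N) : mp a b' c ∈ N := by
  obtain ⟨k, rfl⟩ := Nat.exists_eq_add_of_le h
  clear h
  induction k with
  | zero => exact hm
  | succ k ih =>
    apply ih
    have := hY _ hm
    rwa [Y2_apply, mp, show b' + (k + 1) = (b' + k) + 1 by ring, Y_mm_succ, map_zero] at this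
include hY in
theorem mq_Y (a b b' c : ℕ) (h : b' ≤ b) (hm : mq a b c ∈ N) : mq a b' c ∈ N := by
  obtain ⟨k, rfl⟩ := Nat.exists_eq_add_of_le h
  clear h
  induction k with
  | zero => exact hm
  | succ k ih =>
    apply ih
    have := hY _ hm
    rwa [Y2_apply, mq, show b' + (k + 1) = (b' + k) + 1 by ring, Y_mm_succ, map_zero] at this
include hU in
theorem mp_U (a b c c' : ℕ) (h : c' ≤ c) (hm : mp a b c ∈ N) : mp a b c' ∈ N := by
  obtain ⟨k, rfl⟩ := Nat.exists_eq_add_of_le h
  clear h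
  induction k with
  | zero => exact hm
  | succ k ih =>
    apply ih
    have := hU _ hm
    rwa [U2_apply, mp, show c' + (k + 1) = (c' + k) + 1 by ring, U_mm_succ, map_zero] at this
include hU in
theorem mq_U (a b c c' : ℕ) (h : c' ≤ c) (hm : mq a b c ∈ N) : mq a b c' ∈ N := by
  obtain ⟨k, rfl⟩ := Nat.exists_eq_add_of_le h
  clear h
  induction k with
  | zero => exact hm
  | succ k ih =>
    apply ih
    have := hU _ hm
    rwa [U2_apply, mq, show c' + (k + 1) = (c' + k) + 1 by ring, U_mm_succ, map_zero] at this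

include hX hY hU in
theorem mp_le (a b c a' b' c' : ℕ) (ha : a' ≤ a) (hb : b' ≤ b) (hc : c' ≤ c)
    (hm : mp a b c ∈ N) : mp a' b' c' ∈ N :=
  mp_X N hX a a' b' c' ha (mp_Y N hY a b b' c' hb (mp_U N hU a b c c' hc hm))
include hX hY hU in
theorem mq_le (a b c a' b' c' : ℕ) (ha : a' ≤ a) (hb : b' ≤ b) (hc : c' ≤ c)
    (hm : mq a b c ∈ N) : mq a' b' c' ∈ N :=
  mq_X N hX a a' b' c' ha (mq_Y N hY a b b' c' hb (mq_U N hU a b c c' hc hm))

/-- abstract form: `N` is stable under an operator `ψ` with the stated values on monomials -/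
theorem growth (τ : ℕ → ℕ) (hτ : ∀ c, c ≤ τ c) (ψ : E × E → E × E) (hψ : ∀ v ∈ N, ψ v ∈ N)
    (C : ℕ → Prop) (hCτ : ∀ c, C c → C (τ c)) (hC0 : C 0)
    (h1 : ∀ a b c, C c → ψ (mp a b c) = mq (2 * a + 1) (2 * b + 1) (τ c))
    (h2 : ∀ a b c, C c → ψ (mq (a + 1) b c) =
      mp (2 * a + 1) (2 * b + 1) (τ c) + mq (2 * a + 3) (2 * b) (τ c))
    (h3 : ∀ b c, C c → ψ (mq 0 b c) = mq 1 (2 * b) (τ c))
    (h4 : ψ (mp 0 0 0 + mq 0 0 0) = mq 1 1 (τ 0) + mq 1 0 (τ 0))
    (hX : ∀ v ∈ N, X2 v ∈ N) (hY : ∀ v ∈ N, Y2 v ∈ N) (hU : ∀ v ∈ N, U2 v ∈ N)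
    (w : E × E) (hw : w ∈ N) (hw0 : w ≠ 0)
    (n : ℕ) : ∃ a b k, n ≤ a ∧ n ≤ b ∧ n ≤ k ∧ mp a b (τ^[k] 0) ∈ N := by
  have hq0 : mq 0 0 0 ∈ N := by
    obtain ⟨s, hs, hs0, hsX, hsY, hsU⟩ := exists_socle X2 Y2 U2 XY2 XU2 YU2 X2_nil Y2_nil U2_nil N
      hX hY hU w hw0 hw
    have e1 := socle_eq s.1 (congrArg Prod.fst hsX) (congrArg Prod.fst hsY) (congrArg Prod.fst hsU)
    have e2 := socle_eq s.2 (congrArg Prod.snd hsX) (congrArg Prod.snd hsY) (congrArg Prod.snd hsU)
    rcases e1 with e1 | e1 <;> rcases e2 with e2 | e2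
    · exact absurd (Prod.ext e1 e2) hs0
    · have : s = mq 0 0 0 := Prod.ext e1 e2
      rw [← this]; exact hs
    · have : s = mp 0 0 0 := Prod.ext e1 e2
      rw [this] at hs
      have h := hψ _ hs
      rw [h1 _ _ _ hC0] at h
      exact mq_le N hX hY hU _ _ _ 0 0 0 (by omega) (by omega) (by omega) h
    · have : s = mp 0 0 0 + mq 0 0 0 := by
        apply Prod.ext
        · simp [mp, mq, e1]
        · simp [mp, mq, e2]
      rw [this] at hs
      have h := hψ _ hs
      rw [h4] at h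
      have h' := hY _ h
      rw [map_add, Y2_apply, Y2_apply, mq, mq, Y_mm_zero, Y_mm_succ, map_zero] at h'
      have h'' : mq 1 0 (τ 0) ∈ N := by
        convert h' using 1
        simp [mq]
      exact mq_le N hX hY hU _ _ _ 0 0 0 (by omega) (by omega) (by omega) h''
  have hCk : ∀ k, C (τ^[k] 0) := by
    intro k
    induction k with
    | zero => exact hC0
    | succ k ih => rw [Function.iterate_succ_apply']; exact hCτ _ ih
  have hq1 : mq 1 0 (τ^[1] 0) ∈ N := by
    have := hψ _ hq0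
    rwa [h3 _ _ hC0] at this
  have hp1 : mp 1 0 (τ^[2] 0) ∈ N := by
    have h := hψ _ hq1
    rw [show (1 : ℕ) = 0 + 1 by ring, h2 _ _ _ (hCk _), ← Function.iterate_succ_apply' τ] at h
    have h' := hY _ h
    rw [map_add, Y2_apply, Y2_apply, mp, mq, show 2 * 0 = 0 by ring, Y_mm_zero, Y_mm_succ,
      map_zero] at h'
    convert h' using 1
    simp [mp]
  have hq3 : mq 3 1 (τ^[3] 0) ∈ N := by
    have h := hψ _ hp1
    rwa [h1 _ _ _ (hCk _), ← Function.iterate_succ_apply' τ] at h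
  have hp5 : mp 5 0 (τ^[4] 0) ∈ N := by
    have h := hψ _ hq3
    rw [show (3 : ℕ) = 2 + 1 by ring, h2 _ _ _ (hCk _), ← Function.iterate_succ_apply' τ] at h
    have h' := hY _ (hY _ (hY _ h))
    simp only [map_add, Y2_apply, mp, mq] at h'
    rw [show 2 * 1 + 1 = 0 + 1 + 1 + 1 by ring, show 2 * 1 = 0 + 1 + 1 by ring] at h'
    simp only [Y_mm_succ, Y_mm_zero, map_zero] at h'
    convert h' using 1
    simp [mp]
  induction n with
  | zero => exact ⟨5, 0, 4, by omega, by omega, by omega, hp5⟩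
  | succ n ih =>
    clear ih
    have main : ∀ m, ∃ a b k, m + 5 ≤ a ∧ m ≤ b ∧ m ≤ k ∧ mp a b (τ^[k] 0) ∈ N := by
      intro m
      induction m with
      | zero => exact ⟨5, 0, 4, by omega, by omega, by omega, hp5⟩
      | succ m ih =>
        obtain ⟨a, b, k, ha, hb, hk, hm⟩ := ih
        have h := hψ _ hm
        rw [h1 _ _ _ (hCk _), ← Function.iterate_succ_apply' τ] at h
        have hle : τ^[k] 0 ≤ τ^[k + 1] 0 := by
          rw [Function.iterate_succ_apply']; exact hτ _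
        have hq : mq a b (τ^[k] 0) ∈ N :=
          mq_le N hX hY hU _ _ _ _ _ _ (by omega) (by omega) hle h
        obtain ⟨a', rfl⟩ : ∃ a', a = a' + 1 := ⟨a - 1, by omega⟩
        have h' := hψ _ hq
        rw [h2 _ _ _ (hCk _), ← Function.iterate_succ_apply' τ] at h'
        have h'' : mq (2 * a' + 3) (2 * b) (τ^[k + 1] 0) ∈ N :=
          mq_le N hX hY hU _ _ _ _ _ _ (by omega) (by omega) (le_refl _) h
        refine ⟨2 * a' + 1, 2 * b + 1, k + 1, by omega, by omega, by omega, ?_⟩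
        have := N.sub_mem h' h''
        rwa [add_sub_cancel_right] at this
    obtain ⟨a, b, k, ha, hb, hk, hm⟩ := main (n + 1)
    exact ⟨a, b, k, by omega, hb, hk, hm⟩

end

theorem AN_phi : ANil X2 Y2 U2 phi := by
  intro N hX hY hU hF v hv
  by_cases hN : ∃ w ∈ N, w ≠ 0
  · obtain ⟨w, hw, hw0⟩ := hN
    have G := growth N (fun c => 2 * c + 1) (fun c => by show c ≤ 2 * c + 1; omega) phi hF (fun _ => True)
      (fun _ _ => trivial) trivial (fun a b c _ => phi_mp a b c) (fun a b c _ => phi_mq_succ a b c)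
      (fun b c _ => phi_mq_zero b c) (by rw [map_add, phi_mp, phi_mq_zero]) hX hY hU w hw hw0
    have hk : ∀ k, k ≤ (fun c => 2 * c + 1)^[k] 0 := by
      intro k
      induction k with
      | zero => exact le_refl _
      | succ k ih =>
        rw [Function.iterate_succ_apply']
        show k + 1 ≤ 2 * _ + 1
        omega
    have hp : ∀ a b c, mp a b c ∈ N := by
      intro a b c
      obtain ⟨a', b', k, h1, h2, h3, h4⟩ := G (a + b + c)
      have := hk k
      exact mp_le N hX hY hU _ _ _ _ _ _ (by omega) (by omega) (by omega) h4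
    have hq : ∀ a b c, mq a b c ∈ N := by
      intro a b c
      have := hF _ (hp a b c)
      rw [phi_mp] at this
      exact mq_le N hX hY hU _ _ _ _ _ _ (by omega) (by omega) (by omega) this
    have e : v = (v.1, 0) + (0, v.2) := by simp
    rw [e]
    apply N.add_mem
    · exact mem_of_mm (N.comap (AddMonoidHom.inl E E)) v.1 (fun a b c _ => hp a b c)
    · exact mem_of_mm (N.comap (AddMonoidHom.inr E E)) v.2 (fun a b c _ => hq a b c)
  · push Not at hN
    have h0 : phi v = 0 := hN _ hv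
    rw [phi_apply] at h0
    have h1 : X (X (F v.2)) = 0 := congrArg Prod.fst h0
    have h2 : F v.1 + Y (F v.2) = 0 := congrArg Prod.snd h0
    have e1 : v.1 = 0 := by
      ext ⟨a, b, c⟩
      have := DFunLike.congr_fun h2 (2 * a + 1, 2 * b + 1, 2 * c + 1)
      rw [Finsupp.add_apply, F_apply, Y_apply, F_notin _ _ _ _ (by omega), add_zero] at this
      exact this
    have e2 : v.2 = 0 := by
      ext ⟨a, b, c⟩
      have := DFunLike.congr_fun h2 (2 * a + 1, 2 * b, 2 * c + 1)
      rw [Finsupp.add_apply, F_notin _ _ _ _ (by omega), Y_apply, F_apply, zero_add] at this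
      exact this
    have : v = 0 := Prod.ext e1 e2
    rw [this]
    exact N.zero_mem

theorem iter_zero (k : ℕ) : (fun c : ℕ => 2 * c)^[k] 0 = 0 := by
  induction k with
  | zero => rfl
  | succ k ih => rw [Function.iterate_succ_apply', ih]

/-- the restriction of `u φ` to the kernel of `u` -/
theorem AN_Uphi_ker (N : AddSubgroup (E × E)) (hX : ∀ v ∈ N, X2 v ∈ N) (hY : ∀ v ∈ N, Y2 v ∈ N)
    (hU : ∀ v ∈ N, U2 v = 0) (hF : ∀ v ∈ N, U2 (phi v) ∈ N) (v : E × E) (hv0 : U2 v = 0)
    (hv : U2 (phi v) ∈ N) : v ∈ N := by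
  have hc : ∀ a b c, v.1 (a, b, c + 1) = 0 ∧ v.2 (a, b, c + 1) = 0 := by
    intro a b c
    constructor
    · have : U v.1 = 0 := congrArg Prod.fst hv0
      rw [← U_apply, this]; rfl
    · have : U v.2 = 0 := congrArg Prod.snd hv0
      rw [← U_apply, this]; rfl
  have hU' : ∀ v ∈ N, U2 v ∈ N := fun v hv => by rw [hU v hv]; exact N.zero_mem
  by_cases hN : ∃ w ∈ N, w ≠ 0
  · obtain ⟨w, hw, hw0⟩ := hN
    have G := growth N (fun c => 2 * c) (fun c => by show c ≤ 2 * c; omega) (fun v => U2 (phi v)) hF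
      (fun _ => True) (fun _ _ => trivial) trivial
      (fun a b c _ => by
        show U2 (phi (mp a b c)) = _
        rw [phi_mp, U2_apply, mq, U_mm_succ, map_zero]; rfl)
      (fun a b c _ => by
        show U2 (phi (mq (a + 1) b c)) = _
        rw [phi_mq_succ, map_add, U2_apply, U2_apply, mq, mp, U_mm_succ, U_mm_succ, map_zero]; rfl)
      (fun b c _ => by
        show U2 (phi (mq 0 b c)) = _
        rw [phi_mq_zero, U2_apply, mq, U_mm_succ, map_zero]; rfl)
      (by
        show U2 (phi (mp 0 0 0 + mq 0 0 0)) = _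
        rw [map_add, phi_mp, phi_mq_zero, map_add, U2_apply, U2_apply, mq, mq, U_mm_succ, U_mm_succ,
          map_zero]; rfl) hX hY hU' w hw hw0
    have hp : ∀ a b, mp a b 0 ∈ N := by
      intro a b
      obtain ⟨a', b', k, h1, h2, h3, h4⟩ := G (a + b)
      rw [iter_zero] at h4
      exact mp_le N hX hY hU' _ _ _ _ _ _ (by omega) (by omega) (by omega) h4
    have hq : ∀ a b, mq a b 0 ∈ N := by
      intro a b
      have := hF _ (hp a b)
      rw [phi_mp, U2_apply, mq, U_mm_succ, map_zero] at this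
      exact mq_le N hX hY hU' _ _ _ _ _ _ (by omega) (by omega) (by omega) this
    have e : v = (v.1, 0) + (0, v.2) := by simp
    rw [e]
    apply N.add_mem
    · refine mem_of_mm (N.comap (AddMonoidHom.inl E E)) v.1 (fun a b c h => ?_)
      rcases c with _ | c
      · exact hp a b
      · exact absurd (hc a b c).1 h
    · refine mem_of_mm (N.comap (AddMonoidHom.inr E E)) v.2 (fun a b c h => ?_)
      rcases c with _ | c
      · exact hq a b
      · exact absurd (hc a b c).2 h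
  · push Not at hN
    have h0 : U2 (phi v) = 0 := hN _ hv
    rw [phi_apply, U2_apply] at h0
    have h2 : U (F v.1 + Y (F v.2)) = 0 := congrArg Prod.snd h0
    have e1 : v.1 = 0 := by
      ext ⟨a, b, c⟩
      rcases c with _ | c
      · have := DFunLike.congr_fun h2 (2 * a + 1, 2 * b + 1, 0)
        rw [U_apply, Finsupp.add_apply, show 0 + 1 = 2 * 0 + 1 by ring, F_apply, Y_apply,
          F_notin _ _ _ _ (by omega), add_zero] at this
        exact this
      · exact (hc a b c).1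
    have e2 : v.2 = 0 := by
      ext ⟨a, b, c⟩
      rcases c with _ | c
      · have := DFunLike.congr_fun h2 (2 * a + 1, 2 * b, 0)
        rw [U_apply, Finsupp.add_apply, F_notin _ _ _ _ (by omega), Y_apply,
          show 0 + 1 = 2 * 0 + 1 by ring, F_apply, zero_add] at this
        exact this
      · exact (hc a b c).2
    have : v = 0 := Prod.ext e1 e2
    rw [this]
    exact N.zero_mem

theorem U_surj (e : E) : ∃ e', U e' = e := by
  refine ind (fun e => ∃ e', U e' = e) ⟨0, map_zero _⟩ ?_ ?_ e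
  · rintro e e' ⟨f, rfl⟩ ⟨f', rfl⟩
    exact ⟨f + f', map_add _ _ _⟩
  · intro a b c
    exact ⟨mm a b (c + 1), U_mm_succ a b c⟩

theorem AN_G : ANil X2 Y2 U2 (fun v => U2 (phi v)) := by
  intro N hX hY hU hF v hv
  -- step 1: image of `N` under `U2`
  have step1 : U2 v ∈ N.map U2 := by
    refine AN_phi (N.map U2) ?_ ?_ ?_ ?_ _ ?_
    · rintro _ ⟨n, hn, rfl⟩
      exact ⟨X2 n, hX n hn, (XU2 n).symm⟩
    · rintro _ ⟨n, hn, rfl⟩
      exact ⟨Y2 n, hY n hn, (YU2 n).symm⟩
    · rintro _ ⟨n, hn, rfl⟩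
      exact ⟨U2 n, hU n hn, rfl⟩
    · rintro _ ⟨n, hn, rfl⟩
      exact ⟨U2 (phi n), hF n hn, (phi_U n).symm⟩
    · rw [phi_U]
      exact ⟨_, hv, rfl⟩
  obtain ⟨n, hn, hnv⟩ := step1
  have hh : v - n ∈ N := by
    have h0 : U2 (v - n) = 0 := by rw [map_sub, hnv, sub_self]
    have := AN_Uphi_ker (N ⊓ U2.ker) ?_ ?_ ?_ ?_ (v - n) h0 ?_
    · exact this.1
    · rintro w ⟨hw, hw0⟩
      refine ⟨hX w hw, ?_⟩
      show U2 (X2 w) = 0
      rw [← XU2, show U2 w = 0 from hw0, map_zero]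
    · rintro w ⟨hw, hw0⟩
      refine ⟨hY w hw, ?_⟩
      show U2 (Y2 w) = 0
      rw [← YU2, show U2 w = 0 from hw0, map_zero]
    · rintro w ⟨hw, hw0⟩
      exact hw0
    · rintro w ⟨hw, hw0⟩
      refine ⟨hF w hw, ?_⟩
      show U2 (U2 (phi w)) = 0
      rw [← phi_U, show U2 w = 0 from hw0, map_zero]
    · refine ⟨?_, ?_⟩
      · rw [map_sub, map_sub]
        exact N.sub_mem hv (hF n hn)
      · show U2 (U2 (phi (v - n))) = 0
        rw [← phi_U, h0, map_zero]
  have := N.add_mem hh hn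
  rwa [sub_add_cancel] at this

/-- the three-term module -/
noncomputable def F3 (v : E × (E × E)) : E × (E × E) := (F v.1, U2 (phi v.2))

theorem AN_V : ANil (X.prodMap X2) (Y.prodMap Y2) (U.prodMap U2) F3 := by
  intro N hX hY hU hF v hv
  have step1 : v.2 ∈ N.map (AddMonoidHom.snd E (E × E)) := by
    refine AN_G (N.map (AddMonoidHom.snd E (E × E))) ?_ ?_ ?_ ?_ _ ?_
    · rintro _ ⟨n, hn, rfl⟩
      exact ⟨_, hX n hn, rfl⟩
    · rintro _ ⟨n, hn, rfl⟩
      exact ⟨_, hY n hn, rfl⟩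
    · rintro _ ⟨n, hn, rfl⟩
      exact ⟨_, hU n hn, rfl⟩
    · rintro _ ⟨n, hn, rfl⟩
      exact ⟨_, hF n hn, rfl⟩
    · exact ⟨_, hv, rfl⟩
  obtain ⟨n, hn, hnv⟩ := step1
  have hd : v - n = (v.1 - n.1, 0) := by
    apply Prod.ext
    · rfl
    · show v.2 - n.2 = 0
      rw [← hnv]
      exact sub_self _
  have hFd : F3 v - F3 n = (F (v.1 - n.1), 0) := by
    apply Prod.ext
    · exact (map_sub F _ _).symm
    · show U2 (phi v.2) - U2 (phi n.2) = 0
      rw [← hnv]
      exact sub_self _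
  have hh : v - n ∈ N := by
    rw [hd]
    have := AN_E (N.comap (AddMonoidHom.inl E (E × E))) ?_ ?_ ?_ ?_ (v.1 - n.1) ?_
    · exact this
    · intro w hw
      have := hX _ hw
      simpa using this
    · intro w hw
      have := hY _ hw
      simpa using this
    · intro w hw
      have := hU _ hw
      simpa using this
    · intro w hw
      have := hF _ hw
      simpa [F3] using this
    · show (F (v.1 - n.1), (0 : E × E)) ∈ N
      rw [← hFd]
      exact N.sub_mem hv (hF n hn)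
  have := N.add_mem hh hn
  rwa [sub_add_cancel] at this

end Pool.Agent.R688.AN
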