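import Pool.Agent.R688.AN.Alg

namespace Pool.Agent.R688.AN
namespace NegB

universe v
variable {T : Type v} [CommRing T] (x y u yi : T)

/-- approximations of a root of `z³ + y z + x²` -/
def al : ℕ → T
  | 0 => 0
  | n + 1 => yi * (x ^ 2 + al n ^ 3)

theorem al_zero : al x yi 0 = 0 := rfl
theorem al_succ (n : ℕ) : al x yi (n + 1) = yi * (x ^ 2 + al x yi n ^ 3) := rfl

theorem sq_dvd_al (n : ℕ) : x ^ 2 ∣ al x yi n := by
  induction n with
  | zero => exact dvd_zero _
  | succ n ih =>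
    rw [al_succ]
    apply Dvd.dvd.mul_left
    apply dvd_add (dvd_refl _)
    obtain ⟨t, ht⟩ := ih
    exact ⟨t * al x yi n ^ 2, by linear_combination (al x yi n ^ 2) * ht⟩

theorem al_step (n : ℕ) : x ^ (n + 1) ∣ al x yi (n + 1) - al x yi n := by
  induction n with
  | zero =>
    rw [al_succ, al_zero]
    exact ⟨yi * x, by ring⟩
  | succ n ih =>
    obtain ⟨t, ht⟩ := ih
    obtain ⟨a, ha⟩ := sq_dvd_al x yi (n + 1)
    obtain ⟨b, hb⟩ := sq_dvd_al x yi n
    have e : al x yi (n + 1 + 1) - al x yi (n + 1) = yi * (al x yi (n + 1) - al x yi n) *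
        (al x yi (n + 1) ^ 2 + al x yi (n + 1) * al x yi n + al x yi n ^ 2) := by
      rw [al_succ x yi (n + 1)]
      have := al_succ x yi n
      linear_combination -this
    rw [e, ht, ha, hb]
    exact ⟨yi * t * x ^ 3 * (a ^ 2 + a * b + b ^ 2), by ring⟩

theorem al_cauchy (n k : ℕ) : x ^ n ∣ al x yi n - al x yi (n + k) := by
  induction k with
  | zero => rw [Nat.add_zero, sub_self]; exact dvd_zero _
  | succ k ih =>
    have h := al_step x yi (n + k)
    have h' : x ^ n ∣ al x yi (n + k + 1) - al x yi (n + k) :=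
      (pow_dvd_pow x (by omega)).trans h
    have := dvd_sub ih h'
    rwa [show al x yi n - al x yi (n + k) - (al x yi (n + k + 1) - al x yi (n + k)) =
      al x yi n - al x yi (n + (k + 1)) by rw [Nat.add_assoc]; ring] at this

variable (hy : y * yi = 1) (h2 : ∀ t : T, t + t = 0)

include hy h2 in
theorem al_eqn (n : ℕ) : x ^ (2 * n) ∣ x ^ 2 - (al x yi n ^ 2 + y) * al x yi (2 * n) := by
  obtain ⟨t, ht⟩ := al_step x yi (2 * n)
  obtain ⟨c, hc⟩ := al_cauchy x yi n n
  rw [show n + n = 2 * n by ring] at hc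
  have hs := al_succ x yi (2 * n)
  set A := al x yi (2 * n)
  set B := al x yi n
  refine ⟨y * x * t - c ^ 2 * A, ?_⟩
  have hc2 : (B - A) ^ 2 = x ^ (2 * n) * c ^ 2 := by rw [hc]; ring
  have h3 : y * (al x yi (2 * n + 1) - A) = y * (x ^ (2 * n + 1) * t) := by rw [ht]
  have e1 : x ^ (2 * n + 1) = x ^ (2 * n) * x := pow_succ _ _
  rw [e1] at h3
  rw [hs] at h3
  linear_combination h3 - A * hc2 - (x ^ 2 + A ^ 3) * hy - h2 (B * A ^ 2)


/-- contradiction lemma in the base ring -/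
theorem base_lemma (hu0 : ∀ z, u * z = 0 → z = 0)
    (hcol : ∀ j m z, u ^ m ∣ x ^ j * z → u ^ m ∣ z) (h1 : ¬ ∃ a b, (1 : T) = x * a + u * b)
    (n j m : ℕ) (hn : 1 ≤ n) (s α r s' r' t' : T)
    (hc : x ^ j * u ^ m * s = u ^ (m + 1) * r + x ^ (j + n) * s')
    (hb : x ^ j * u ^ m * (x ^ (n - 1) - s * α) = u ^ (m + 1) * r' + x ^ (j + n) * t') : False := by
  have hu0' : ∀ k z, u ^ k * z = 0 → z = 0 := by
    intro k
    induction k with
    | zero => intro z hz; rwa [pow_zero, one_mul] at hz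
    | succ k ih =>
      intro z hz
      apply ih
      apply hu0
      rw [← mul_assoc, ← pow_succ']; exact hz
  have key : ∀ z a b, x ^ j * u ^ m * z = u ^ (m + 1) * a + x ^ (j + n) * b →
      ∃ c d, z = x ^ n * c + u * d := by
    intro z a b h
    obtain ⟨e, he⟩ := hcol j (m + 1) (u ^ m * z - x ^ n * b) ⟨a, by
      rw [pow_add] at h
      linear_combination h⟩
    have h3 : u ^ m ∣ x ^ n * b := ⟨z - u * e, by
      rw [pow_succ] at he
      linear_combination -he⟩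
    obtain ⟨b', hb'⟩ := hcol n m b h3
    refine ⟨b', e, ?_⟩
    have : u ^ m * (z - (x ^ n * b' + u * e)) = 0 := by
      rw [hb'] at he
      rw [pow_succ] at he
      linear_combination he
    exact sub_eq_zero.mp (hu0' m _ this)
  obtain ⟨c, d, hs⟩ := key s r s' hc
  obtain ⟨c', d', hs'⟩ := key _ r' t' hb
  have h5 : x ^ (n - 1) * (1 - x * (c' + c * α)) = u * (d' + d * α) := by
    obtain ⟨k, rfl⟩ := Nat.exists_eq_add_of_le hn
    rw [show 1 + k - 1 = k by omega] at hs' ⊢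
    rw [show 1 + k = k + 1 by ring, pow_succ] at hs hs'
    linear_combination hs' + α * hs
  obtain ⟨w, hw⟩ := hcol (n - 1) 1 (1 - x * (c' + c * α)) ⟨d' + d * α, by rw [pow_one]; exact h5⟩
  rw [pow_one] at hw
  exact h1 ⟨c' + c * α, w, by linear_combination hw⟩

/-- elements `w` with `g ^ k * w` in the image of `R` -/
def Ig {R W : Type v} [CommRing R] [CommRing W] [Algebra R W] (g : R) : Submodule R W where
  carrier := {w | ∃ (k : ℕ) (r : R), algebraMap R W (g ^ k) * w = algebraMap R W r}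
  zero_mem' := ⟨0, 0, by simp⟩
  add_mem' := by
    rintro w w' ⟨k, r, h⟩ ⟨l, r', h'⟩
    refine ⟨k + l, g ^ l * r + g ^ k * r', ?_⟩
    simp only [map_add, map_mul, pow_add] at h h' ⊢
    linear_combination (algebraMap R W (g ^ l)) * h + (algebraMap R W (g ^ k)) * h'
  smul_mem' := by
    rintro s w ⟨k, r, h⟩
    refine ⟨k, s * r, ?_⟩
    rw [map_mul, Algebra.smul_def]
    linear_combination (algebraMap R W s) * h

theorem Ig_sq {R W : Type v} [CommRing R] [CommRing W] [Algebra R W] (g : R) (w : W)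
    (h : w ∈ Ig (R := R) (W := W) g) : w ^ 2 ∈ Ig (R := R) (W := W) g := by
  obtain ⟨k, r, h⟩ := h
  refine ⟨2 * k, r ^ 2, ?_⟩
  rw [show g ^ (2 * k) = g ^ k * g ^ k by ring, map_mul, show r ^ 2 = r * r by ring, map_mul, ← h]
  ring

section W
variable {x y u yi}
variable {W : Type v} [CommRing W] [Algebra (Bx T x y u) W] (Xi Ui : W)
  (hX : algebraMap (Bx T x y u) W (Bx.iota x) * Xi = 1)
  (hU : algebraMap (Bx T x y u) W (Bx.iota u) * Ui = 1)

/-- the sum of the two submodules -/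
def I : Submodule (Bx T x y u) W := Ig (Bx.iota x) ⊔ Ig (Bx.iota u)

include hX in
theorem mem_Ix (k : ℕ) (r : Bx T x y u) : algebraMap (Bx T x y u) W r * Xi ^ k ∈
    (I : Submodule (Bx T x y u) W) := by
  apply Submodule.mem_sup_left
  refine ⟨k, r, ?_⟩
  have : (algebraMap (Bx T x y u) W (Bx.iota x)) ^ k * Xi ^ k = 1 := by
    rw [← mul_pow, hX, one_pow]
  rw [map_pow]
  linear_combination (algebraMap (Bx T x y u) W r) * this

include hU in
theorem mem_Iu (k : ℕ) (r : Bx T x y u) : algebraMap (Bx T x y u) W r * Ui ^ k ∈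
    (I : Submodule (Bx T x y u) W) := by
  apply Submodule.mem_sup_right
  refine ⟨k, r, ?_⟩
  have : (algebraMap (Bx T x y u) W (Bx.iota u)) ^ k * Ui ^ k = 1 := by
    rw [← mul_pow, hU, one_pow]
  rw [map_pow]
  linear_combination (algebraMap (Bx T x y u) W r) * this

variable (x y u yi) in
/-- the elements generating the bad submodule -/
def gen (n : ℕ) : W := Xi ^ n * Ui * (algebraMap (Bx T x y u) W (Bx.iota (al x yi n)) *
  algebraMap (Bx T x y u) W Bx.p + algebraMap (Bx T x y u) W Bx.q)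

theorem hPP : algebraMap (Bx T x y u) W Bx.p * algebraMap (Bx T x y u) W Bx.p =
      algebraMap (Bx T x y u) W (Bx.iota u) * algebraMap (Bx T x y u) W Bx.q := by
    rw [← map_mul, Bx.pp, map_mul]
theorem hPQ : algebraMap (Bx T x y u) W Bx.p * algebraMap (Bx T x y u) W Bx.q =
      algebraMap (Bx T x y u) W (Bx.iota u) * algebraMap (Bx T x y u) W (Bx.iota y) *
        algebraMap (Bx T x y u) W Bx.p +
      algebraMap (Bx T x y u) W (Bx.iota u) ^ 2 * algebraMap (Bx T x y u) W (Bx.iota x) ^ 2 := by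
    rw [← map_mul, Bx.pq]
    simp only [map_add, map_mul, map_pow]
theorem hQQ : algebraMap (Bx T x y u) W Bx.q * algebraMap (Bx T x y u) W Bx.q =
      algebraMap (Bx T x y u) W (Bx.iota u) * algebraMap (Bx T x y u) W (Bx.iota y) *
        algebraMap (Bx T x y u) W Bx.q +
      algebraMap (Bx T x y u) W (Bx.iota u) * algebraMap (Bx T x y u) W (Bx.iota x) ^ 2 *
        algebraMap (Bx T x y u) W Bx.p := by
    rw [← map_mul, Bx.qq]
    simp only [map_add, map_mul, map_pow]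

include hX hU in
theorem gen_shift (n k : ℕ) :
    gen x y u yi Xi Ui n - algebraMap (Bx T x y u) W (Bx.iota (x ^ k)) * gen x y u yi Xi Ui (n + k) ∈
      (I : Submodule (Bx T x y u) W) := by
  obtain ⟨t, ht⟩ := al_cauchy x yi n k
  have h := mem_Iu Ui hU 1 (Bx.iota t * Bx.p)
  convert h using 1
  unfold gen
  have e1 : (algebraMap (Bx T x y u) W (Bx.iota x)) ^ k * Xi ^ k = 1 := by
    rw [← mul_pow, hX, one_pow]
  have e2 : (algebraMap (Bx T x y u) W (Bx.iota x)) ^ n * Xi ^ n = 1 := by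
    rw [← mul_pow, hX, one_pow]
  have e3 := congrArg (fun t => algebraMap (Bx T x y u) W (Bx.iota t)) ht
  simp only [map_sub, map_mul, map_pow] at e3 ⊢
  rw [pow_add]
  linear_combination (-(Xi ^ n * Ui * (algebraMap (Bx T x y u) W (Bx.iota (al x yi (n + k))) *
      algebraMap (Bx T x y u) W Bx.p + algebraMap (Bx T x y u) W Bx.q))) * e1 +
    (Xi ^ n * Ui * algebraMap (Bx T x y u) W Bx.p) * e3 +
    (Ui * algebraMap (Bx T x y u) W (Bx.iota t) * algebraMap (Bx T x y u) W Bx.p) * e2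

include hX hU in
theorem p_gen (n : ℕ) : algebraMap (Bx T x y u) W Bx.p * gen x y u yi Xi Ui n ∈
    (I : Submodule (Bx T x y u) W) := by
  have h := mem_Ix Xi hX n (Bx.iota (al x yi n) * Bx.q + Bx.iota y * Bx.p + Bx.iota u * Bx.iota x ^ 2)
  convert h using 1
  unfold gen
  have h1 := hPP (T := T) (x := x) (y := y) (u := u) (W := W)
  have h2 := hPQ (T := T) (x := x) (y := y) (u := u) (W := W)
  simp only [map_add, map_mul, map_pow]
  set A := algebraMap (Bx T x y u) W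
  linear_combination (Xi ^ n * Ui * A (Bx.iota (al x yi n))) * h1 + (Xi ^ n * Ui) * h2 +
    (Xi ^ n * (A (Bx.iota (al x yi n)) * A Bx.q + A (Bx.iota y) * A Bx.p +
      A (Bx.iota u) * A (Bx.iota x) ^ 2)) * hU

include hX hU in
theorem q_gen (n : ℕ) : algebraMap (Bx T x y u) W Bx.q * gen x y u yi Xi Ui n ∈
    (I : Submodule (Bx T x y u) W) := by
  have h := mem_Ix Xi hX n (Bx.iota (al x yi n) * (Bx.iota y * Bx.p + Bx.iota u * Bx.iota x ^ 2) +
    Bx.iota y * Bx.q + Bx.iota x ^ 2 * Bx.p)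
  convert h using 1
  unfold gen
  have h1 := hPQ (T := T) (x := x) (y := y) (u := u) (W := W)
  have h2 := hQQ (T := T) (x := x) (y := y) (u := u) (W := W)
  simp only [map_add, map_mul, map_pow]
  set A := algebraMap (Bx T x y u) W
  linear_combination (Xi ^ n * Ui * A (Bx.iota (al x yi n))) * h1 + (Xi ^ n * Ui) * h2 +
    (Xi ^ n * (A (Bx.iota (al x yi n)) * (A (Bx.iota y) * A Bx.p + A (Bx.iota u) * A (Bx.iota x) ^ 2) +
      A (Bx.iota y) * A Bx.q + A (Bx.iota x) ^ 2 * A Bx.p)) * hU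

include hX hU hy h2 in
theorem gen_sq (n : ℕ) : gen x y u yi Xi Ui n ^ 2 -
    algebraMap (Bx T x y u) W (Bx.iota (al x yi n ^ 2 + y)) * gen x y u yi Xi Ui (2 * n) ∈
    (I : Submodule (Bx T x y u) W) := by
  obtain ⟨t, ht⟩ := al_eqn x y yi hy h2 n
  have h := mem_Iu Ui hU 1 (Bx.iota t * Bx.p)
  convert h using 1
  unfold gen
  have h1 := hPP (T := T) (x := x) (y := y) (u := u) (W := W)
  have h2' := hQQ (T := T) (x := x) (y := y) (u := u) (W := W)
  have e2 : (algebraMap (Bx T x y u) W (Bx.iota x)) ^ (2 * n) * Xi ^ (2 * n) = 1 := by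
    rw [← mul_pow, hX, one_pow]
  have e3 := congrArg (fun t => algebraMap (Bx T x y u) W (Bx.iota t)) ht
  have e4 : algebraMap (Bx T x y u) W (Bx.iota (al x yi n)) * algebraMap (Bx T x y u) W Bx.p *
      algebraMap (Bx T x y u) W Bx.q + algebraMap (Bx T x y u) W (Bx.iota (al x yi n)) *
      algebraMap (Bx T x y u) W Bx.p * algebraMap (Bx T x y u) W Bx.q = 0 := by
    have := congrArg (fun t => algebraMap (Bx T x y u) W (Bx.iota t * Bx.p * Bx.q)) (h2 (al x yi n))
    simp only [map_add, map_mul, add_mul, map_zero, zero_mul] at this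
    exact this
  simp only [map_sub, map_add, map_mul, map_pow] at e3 ⊢
  set A := algebraMap (Bx T x y u) W
  rw [mul_pow, mul_pow, ← pow_mul, show n * 2 = 2 * n by ring]
  linear_combination (Xi ^ (2 * n) * Ui ^ 2 * A (Bx.iota (al x yi n)) ^ 2) * h1 +
    (Xi ^ (2 * n) * Ui ^ 2) * h2' + (Xi ^ (2 * n) * Ui ^ 2) * e4 +
    (Xi ^ (2 * n) * Ui * (A (Bx.iota (al x yi n)) ^ 2 * A Bx.q + A (Bx.iota y) * A Bx.q +
      A (Bx.iota x) ^ 2 * A Bx.p)) * hU + (Xi ^ (2 * n) * Ui * A Bx.p) * e3 +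
    (Ui * A (Bx.iota t) * A Bx.p) * e2

/-- the bad submodule -/
def N (hX : algebraMap (Bx T x y u) W (Bx.iota x) * Xi = 1)
    (hU : algebraMap (Bx T x y u) W (Bx.iota u) * Ui = 1) (yi : T) :
    Submodule (Bx T x y u) W where
  carrier := {w | ∃ (n : ℕ) (s : T), w - algebraMap (Bx T x y u) W (Bx.iota s) * gen x y u yi Xi Ui n ∈
    (I : Submodule (Bx T x y u) W)}
  zero_mem' := ⟨0, 0, by rw [map_zero, map_zero, zero_mul, sub_zero]; exact Submodule.zero_mem _⟩
  add_mem' := by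
    rintro w w' ⟨n, s, h⟩ ⟨m, s', h'⟩
    refine ⟨n + m, s * x ^ m + s' * x ^ n, ?_⟩
    have h1 := gen_shift (yi := yi) Xi Ui hX hU n m
    have h2 := gen_shift (yi := yi) Xi Ui hX hU m n
    rw [show m + n = n + m by ring] at h2
    have h3 := Submodule.smul_mem _ (Bx.iota s) h1
    have h4 := Submodule.smul_mem _ (Bx.iota s') h2
    have := Submodule.add_mem _ (Submodule.add_mem _ h h') (Submodule.add_mem _ h3 h4)
    convert this using 1
    rw [Algebra.smul_def, Algebra.smul_def]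
    simp only [map_add, map_mul]
    ring
  smul_mem' := by
    rintro r w ⟨n, s, h⟩
    refine ⟨n, r.a * s, ?_⟩
    have h1 := Submodule.smul_mem _ r h
    have h2 := Submodule.smul_mem _ (Bx.iota (r.b * s)) (p_gen (yi := yi) Xi Ui hX hU n)
    have h3 := Submodule.smul_mem _ (Bx.iota (r.c * s)) (q_gen (yi := yi) Xi Ui hX hU n)
    have := Submodule.add_mem _ h1 (Submodule.add_mem _ h2 h3)
    convert this using 1
    have e := congrArg (algebraMap (Bx T x y u) W) (Bx.decomp r)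
    simp only [Algebra.smul_def, map_add, map_mul] at e ⊢
    set A := algebraMap (Bx T x y u) W
    linear_combination (A (Bx.iota s) * gen x y u yi Xi Ui n) * e

theorem mem_N {w : W} : w ∈ N Xi Ui hX hU yi ↔ ∃ (n : ℕ) (s : T),
    w - algebraMap (Bx T x y u) W (Bx.iota s) * gen x y u yi Xi Ui n ∈
    (I : Submodule (Bx T x y u) W) := Iff.rfl

theorem I_le_N {w : W} (h : w ∈ (I : Submodule (Bx T x y u) W)) : w ∈ N Xi Ui hX hU yi :=
  (mem_N Xi Ui hX hU).mpr ⟨0, 0, by rw [map_zero, map_zero, zero_mul, sub_zero]; exact h⟩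

theorem char_W {T : Type v} [CommRing T] (x y u : T) {W : Type v} [CommRing W]
    [Algebra (Bx T x y u) W] (h2 : ∀ t : T, t + t = 0) (w : W) : w + w = 0 := by
  have := congrArg (fun t => algebraMap (Bx T x y u) W (Bx.iota t)) (h2 1)
  simp only [map_add, map_one, map_zero] at this
  linear_combination w * this

include h2 in
theorem I_sq {w : W} (h : w ∈ (I : Submodule (Bx T x y u) W)) :
    w ^ 2 ∈ (I : Submodule (Bx T x y u) W) := by
  obtain ⟨a, ha, b, hb, rfl⟩ := Submodule.mem_sup.mp h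
  have : (a + b) ^ 2 = a ^ 2 + b ^ 2 := by
    linear_combination char_W x y u h2 (a * b)
  rw [this]
  exact Submodule.add_mem _ (Submodule.mem_sup_left (Ig_sq _ _ ha))
    (Submodule.mem_sup_right (Ig_sq _ _ hb))

include hy h2 in
theorem N_sq {w : W} (h : w ∈ N Xi Ui hX hU yi) : w ^ 2 ∈ N Xi Ui hX hU yi := by
  obtain ⟨n, s, h⟩ := (mem_N Xi Ui hX hU).mp h
  refine (mem_N Xi Ui hX hU).mpr ⟨2 * n, s ^ 2 * (al x yi n ^ 2 + y), ?_⟩
  have h1 := I_sq (x := x) (y := y) (u := u) h2 h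
  have h3 := Submodule.smul_mem _ (Bx.iota (s ^ 2)) (gen_sq (yi := yi) hy h2 Xi Ui hX hU n)
  have := Submodule.add_mem _ h1 h3
  convert this using 1
  have e := char_W x y u h2
    (w * (algebraMap (Bx T x y u) W (Bx.iota s) * gen x y u yi Xi Ui n))
  have e' := char_W x y u h2
    ((algebraMap (Bx T x y u) W (Bx.iota s) * gen x y u yi Xi Ui n) ^ 2)
  simp only [Algebra.smul_def, map_add, map_mul, map_pow]
  linear_combination e - e'

/-- the bad element -/
def bad : W := Xi * Ui * algebraMap (Bx T x y u) W Bx.p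

theorem bad_sq : bad (T := T) (x := x) (y := y) (u := u) Xi Ui ^ 2 ∈ N Xi Ui hX hU yi := by
  refine (mem_N Xi Ui hX hU).mpr ⟨2, 1, ?_⟩
  obtain ⟨t, ht⟩ := sq_dvd_al x yi 2
  have h := Submodule.neg_mem _ (mem_Iu (x := x) (y := y) Ui hU 1 (Bx.iota t * Bx.p))
  convert h using 1
  unfold bad gen
  have h1 := hPP (T := T) (x := x) (y := y) (u := u) (W := W)
  have e3 := congrArg (fun t => algebraMap (Bx T x y u) W (Bx.iota t)) ht
  have e2 : (algebraMap (Bx T x y u) W (Bx.iota x)) ^ 2 * Xi ^ 2 = 1 := by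
    rw [← mul_pow, hX, one_pow]
  simp only [map_mul, map_pow, map_one] at e3 ⊢
  set A := algebraMap (Bx T x y u) W
  linear_combination (Xi ^ 2 * Ui ^ 2) * h1 + (Xi ^ 2 * Ui * A Bx.q) * hU -
    (Xi ^ 2 * Ui * A Bx.p) * e3 - (Ui * A (Bx.iota t) * A Bx.p) * e2

theorem bad_notMem (hinj : Function.Injective (algebraMap (Bx T x y u) W))
    (hu0 : ∀ z, u * z = 0 → z = 0)
    (hcol : ∀ j m z, u ^ m ∣ x ^ j * z → u ^ m ∣ z) (h1 : ¬ ∃ a b, (1 : T) = x * a + u * b) :
    bad (T := T) (x := x) (y := y) (u := u) Xi Ui ∉ N Xi Ui hX hU yi := by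
  intro h
  obtain ⟨n₀, s₀, h⟩ := (mem_N Xi Ui hX hU).mp h
  -- shift so that `n ≥ 1`
  have h' : bad (T := T) (x := x) (y := y) (u := u) Xi Ui -
      algebraMap (Bx T x y u) W (Bx.iota (s₀ * x)) * gen x y u yi Xi Ui (n₀ + 1) ∈
      (I : Submodule (Bx T x y u) W) := by
    have h3 := Submodule.smul_mem _ (Bx.iota s₀) (gen_shift (yi := yi) Xi Ui hX hU n₀ 1)
    have := Submodule.add_mem _ h h3
    convert this using 1
    rw [pow_one, Algebra.smul_def]
    simp only [map_mul]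
    ring
  generalize s₀ * x = s at h'
  obtain ⟨n, hn, hn1⟩ : ∃ n, n₀ + 1 = n ∧ 1 ≤ n := ⟨_, rfl, by omega⟩
  rw [hn] at h'
  obtain ⟨w1, ⟨k, r1, hk⟩, w2, ⟨l, r2, hl⟩, hw⟩ := Submodule.mem_sup.mp h'
  -- clear denominators with exponent `K = n + k + l`
  have e1 : ∀ m, (algebraMap (Bx T x y u) W (Bx.iota x)) ^ m * Xi ^ m = 1 := fun m => by
    rw [← mul_pow, hX, one_pow]
  have key : (Bx.iota (x ^ (k + l) * u ^ (k + l) * x ^ (n - 1)) * Bx.p -
      Bx.iota (x ^ (k + l) * u ^ (k + l) * s) * (Bx.iota (al x yi n) * Bx.p + Bx.q) : Bx T x y u) =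
      Bx.iota (u ^ (k + l + 1)) * (Bx.iota (x ^ (l + n)) * r1) +
        Bx.iota (x ^ (k + l + n)) * (Bx.iota (u ^ (k + 1)) * r2) := by
    apply hinj
    have hX' : algebraMap (Bx T x y u) W (Bx.iota x) ^ n * Xi ^ n = 1 := e1 n
    have hXn : algebraMap (Bx T x y u) W (Bx.iota x) ^ n * Xi =
        algebraMap (Bx T x y u) W (Bx.iota x) ^ (n - 1) := by
      obtain ⟨m, rfl⟩ := Nat.exists_eq_add_of_le hn1
      rw [show 1 + m - 1 = m by omega, pow_add, pow_one]
      linear_combination (algebraMap (Bx T x y u) W (Bx.iota x) ^ m) * hX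
    simp only [map_sub, map_add, map_mul, map_pow] at hk hl ⊢
    rw [← hk, ← hl]
    unfold bad gen at hw
    simp only [pow_add, pow_one]
    set A := algebraMap (Bx T x y u) W
    have hw' := congrArg (fun z => A (Bx.iota x) ^ k * A (Bx.iota x) ^ l * A (Bx.iota u) ^ k *
      A (Bx.iota u) ^ l * A (Bx.iota x) ^ n * A (Bx.iota u) * z) hw
    linear_combination (-1 : W) * hw' - (A (Bx.iota x) ^ k * A (Bx.iota x) ^ l * A (Bx.iota u) ^ k *
      A (Bx.iota u) ^ l * A Bx.p) * hXn - (A (Bx.iota x) ^ k * A (Bx.iota x) ^ l * A (Bx.iota u) ^ k *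
      A (Bx.iota u) ^ l * A Bx.p * A (Bx.iota x) ^ n * Xi) * hU +
      (A (Bx.iota x) ^ k * A (Bx.iota x) ^ l * A (Bx.iota u) ^ k *
      A (Bx.iota u) ^ l * A (Bx.iota s) * (A (Bx.iota (al x yi n)) * A Bx.p + A Bx.q)) * hX' +
      (A (Bx.iota x) ^ k * A (Bx.iota x) ^ l * A (Bx.iota u) ^ k *
      A (Bx.iota u) ^ l * A (Bx.iota s) * (A (Bx.iota (al x yi n)) * A Bx.p + A Bx.q) *
        (A (Bx.iota x) ^ n * Xi ^ n)) * hU
  have hc := congrArg Bx.c key
  have hb := congrArg Bx.b key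
  simp only [Bx.add_b, Bx.add_c, Bx.sub_b, Bx.sub_c, Bx.mul_b, Bx.mul_c, Bx.mul_a, Bx.iota_a, Bx.iota_b,
    Bx.iota_c, Bx.p_a, Bx.p_b, Bx.p_c, Bx.q_a, Bx.q_b, Bx.q_c, Bx.add_a] at hb hc
  refine base_lemma x u hu0 hcol h1 n (k + l) (k + l) hn1 s (al x yi n)
    (-(x ^ (l + n) * r1.c)) (-(u ^ (k + 1) * r2.c)) (x ^ (l + n) * r1.b) (u ^ (k + 1) * r2.b) ?_ ?_
  · linear_combination -hc
  · linear_combination hb

end W

end NegB
end Pool.Agent.R688.AN
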