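import Pool.Agent.R688.AN.Alg
import Pool.Agent.R688.AN.Comb2

namespace Pool.Agent.R688.AN
namespace TopB

universe v
variable {S : Type v} [CommRing S] {x y u : S} {W : Type v} [CommRing W] [Algebra (Bx S x y u) W]

/-- monomials with negative exponents -/
def Mo (Xi Yi Ui : W) (a b c : ℕ) : W := Xi ^ (a + 1) * Yi ^ (b + 1) * Ui ^ (c + 1)

/-- additive map from the combinatorial model -/
noncomputable def theta (h2 : ∀ w : W, w + w = 0) (Xi Yi Ui : W) : E →+ W :=
  Finsupp.liftAddHom (fun i : I3 => ZMod.lift 2 ⟨zmultiplesHom W (Mo Xi Yi Ui i.1 i.2.1 i.2.2), by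
    show ((2 : ℕ) : ℤ) • Mo Xi Yi Ui i.1 i.2.1 i.2.2 = 0
    rw [natCast_zsmul, two_nsmul]
    exact h2 _⟩)

theorem theta_mm (h2 : ∀ w : W, w + w = 0) (Xi Yi Ui : W) (a b c : ℕ) :
    theta h2 Xi Yi Ui (mm a b c) = Mo Xi Yi Ui a b c := by
  unfold theta mm
  rw [Finsupp.liftAddHom_apply_single]
  have : (1 : ZMod 2) = ((1 : ℤ) : ZMod 2) := by norm_num
  rw [this, ZMod.lift_coe]
  simp

theorem add_sq' (h2 : ∀ w : W, w + w = 0) (a b : W) : (a + b) ^ 2 = a ^ 2 + b ^ 2 := by
  linear_combination h2 (a * b)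

theorem theta_sq (h2 : ∀ w : W, w + w = 0) (Xi Yi Ui : W) (e : E) :
    theta h2 Xi Yi Ui e ^ 2 = theta h2 Xi Yi Ui (F e) := by
  refine ind (fun e => theta h2 Xi Yi Ui e ^ 2 = theta h2 Xi Yi Ui (F e)) (by simp) ?_ ?_ e
  · intro e e' h h'
    rw [map_add, add_sq' h2, h, h', map_add, map_add]
  · intro a b c
    rw [F_mm, theta_mm, theta_mm]
    unfold Mo
    ring

section
variable (h2 : ∀ w : W, w + w = 0) (Xi Yi Ui : W)
  (hX : algebraMap (Bx S x y u) W (Bx.iota x) * Xi = 1)
  (hY : algebraMap (Bx S x y u) W (Bx.iota y) * Yi = 1)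
  (hU : algebraMap (Bx S x y u) W (Bx.iota u) * Ui = 1)
  (N : Submodule (Bx S x y u) W)
  (C0 : ∀ r b c, algebraMap (Bx S x y u) W r * (Yi ^ b * Ui ^ c) ∈ N)
  (C1 : ∀ r a c, algebraMap (Bx S x y u) W r * (Xi ^ a * Ui ^ c) ∈ N)
  (C2 : ∀ r a b, algebraMap (Bx S x y u) W r * (Xi ^ a * Yi ^ b) ∈ N)

/-- congruence modulo `N`, universally -/
def D (N : Submodule (Bx S x y u) W) (w w' : W) : Prop :=
  ∀ r, algebraMap (Bx S x y u) W r * (w - w') ∈ N

theorem D_refl (w : W) : D N w w := fun r => by rw [sub_self, mul_zero]; exact N.zero_mem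

theorem D_trans {w w' w'' : W} (h : D N w w') (h' : D N w' w'') : D N w w'' := fun r => by
  have := N.add_mem (h r) (h' r)
  rw [← mul_add] at this
  rwa [sub_add_sub_cancel] at this

theorem D_add {w w' z z' : W} (h : D N w w') (h' : D N z z') : D N (w + z) (w' + z') := fun r => by
  have := N.add_mem (h r) (h' r)
  rw [← mul_add] at this
  rwa [show w - w' + (z - z') = w + z - (w' + z') by ring] at this

theorem D_mul (s : Bx S x y u) {w w' : W} (h : D N w w') :
    D N (algebraMap (Bx S x y u) W s * w) (algebraMap (Bx S x y u) W s * w') := fun r => by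
  have := h (r * s)
  rw [map_mul] at this
  rwa [← mul_sub, ← mul_assoc]

theorem mem_iff_of_D {w w' : W} (h : D N w w') : w ∈ N ↔ w' ∈ N := by
  have h1 := h 1
  rw [map_one, one_mul] at h1
  exact ⟨fun hw => by
    have := N.sub_mem hw h1
    rwa [sub_sub_cancel] at this, fun hw => by
    have := N.add_mem h1 hw
    rwa [sub_add_cancel] at this⟩

include hX C0 in
theorem theta_X (e : E) : D N (theta h2 Xi Yi Ui (X e))
    (algebraMap (Bx S x y u) W (Bx.iota x) * theta h2 Xi Yi Ui e) := by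
  refine ind (fun e => D N (theta h2 Xi Yi Ui (X e))
    (algebraMap (Bx S x y u) W (Bx.iota x) * theta h2 Xi Yi Ui e)) ?_ ?_ ?_ e
  · simp only [map_zero, mul_zero]; exact D_refl N _
  · intro e e' h h'
    simp only [map_add, mul_add]
    exact D_add N h h'
  · intro a b c
    rcases a with _ | a
    · rw [X_mm_zero, map_zero, theta_mm]
      intro r
      have := N.neg_mem (C0 r (b + 1) (c + 1))
      convert this using 1
      unfold Mo
      linear_combination (-(algebraMap (Bx S x y u) W r) * (Yi ^ (b + 1) * Ui ^ (c + 1))) * hX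
    · rw [X_mm_succ, theta_mm, theta_mm]
      have : algebraMap (Bx S x y u) W (Bx.iota x) * Mo Xi Yi Ui (a + 1) b c = Mo Xi Yi Ui a b c := by
        unfold Mo
        linear_combination (Xi ^ (a + 1) * Yi ^ (b + 1) * Ui ^ (c + 1)) * hX
      rw [this]
      exact D_refl N _

include hY C1 in
theorem theta_Y (e : E) : D N (theta h2 Xi Yi Ui (Y e))
    (algebraMap (Bx S x y u) W (Bx.iota y) * theta h2 Xi Yi Ui e) := by
  refine ind (fun e => D N (theta h2 Xi Yi Ui (Y e))
    (algebraMap (Bx S x y u) W (Bx.iota y) * theta h2 Xi Yi Ui e)) ?_ ?_ ?_ e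
  · simp only [map_zero, mul_zero]; exact D_refl N _
  · intro e e' h h'
    simp only [map_add, mul_add]
    exact D_add N h h'
  · intro a b c
    rcases b with _ | b
    · rw [Y_mm_zero, map_zero, theta_mm]
      intro r
      have := N.neg_mem (C1 r (a + 1) (c + 1))
      convert this using 1
      unfold Mo
      linear_combination (-(algebraMap (Bx S x y u) W r) * (Xi ^ (a + 1) * Ui ^ (c + 1))) * hY
    · rw [Y_mm_succ, theta_mm, theta_mm]
      have : algebraMap (Bx S x y u) W (Bx.iota y) * Mo Xi Yi Ui a (b + 1) c = Mo Xi Yi Ui a b c := by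
        unfold Mo
        linear_combination (Xi ^ (a + 1) * Yi ^ (b + 1) * Ui ^ (c + 1)) * hY
      rw [this]
      exact D_refl N _

include hU C2 in
theorem theta_U (e : E) : D N (theta h2 Xi Yi Ui (U e))
    (algebraMap (Bx S x y u) W (Bx.iota u) * theta h2 Xi Yi Ui e) := by
  refine ind (fun e => D N (theta h2 Xi Yi Ui (U e))
    (algebraMap (Bx S x y u) W (Bx.iota u) * theta h2 Xi Yi Ui e)) ?_ ?_ ?_ e
  · simp only [map_zero, mul_zero]; exact D_refl N _
  · intro e e' h h'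
    simp only [map_add, mul_add]
    exact D_add N h h'
  · intro a b c
    rcases c with _ | c
    · rw [U_mm_zero, map_zero, theta_mm]
      intro r
      have := N.neg_mem (C2 r (a + 1) (b + 1))
      convert this using 1
      unfold Mo
      linear_combination (-(algebraMap (Bx S x y u) W r) * (Xi ^ (a + 1) * Yi ^ (b + 1))) * hU
    · rw [U_mm_succ, theta_mm, theta_mm]
      have : algebraMap (Bx S x y u) W (Bx.iota u) * Mo Xi Yi Ui a b (c + 1) = Mo Xi Yi Ui a b c := by
        unfold Mo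
        linear_combination (Xi ^ (a + 1) * Yi ^ (b + 1) * Ui ^ (c + 1)) * hU
      rw [this]
      exact D_refl N _

/-- the comparison map -/
noncomputable def Theta : E × (E × E) →+ W where
  toFun v := theta h2 Xi Yi Ui v.1 + algebraMap (Bx S x y u) W Bx.p * theta h2 Xi Yi Ui v.2.1 +
    algebraMap (Bx S x y u) W Bx.q * theta h2 Xi Yi Ui v.2.2
  map_zero' := by simp
  map_add' v w := by
    simp only [Prod.fst_add, Prod.snd_add, map_add]
    ring

theorem Theta_apply (v : E × (E × E)) : Theta (x := x) (y := y) (u := u) h2 Xi Yi Ui v =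
    theta h2 Xi Yi Ui v.1 + algebraMap (Bx S x y u) W Bx.p * theta h2 Xi Yi Ui v.2.1 +
    algebraMap (Bx S x y u) W Bx.q * theta h2 Xi Yi Ui v.2.2 := rfl

include hX C0 in
theorem Theta_X (v : E × (E × E)) : D N (Theta (x := x) (y := y) (u := u) h2 Xi Yi Ui (X.prodMap X2 v))
    (algebraMap (Bx S x y u) W (Bx.iota x) * Theta (x := x) (y := y) (u := u) h2 Xi Yi Ui v) := by
  rw [Theta_apply, Theta_apply]
  have h1 := theta_X h2 Xi Yi Ui hX N C0 v.1
  have h2' := D_mul N Bx.p (theta_X h2 Xi Yi Ui hX N C0 v.2.1)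
  have h3 := D_mul N Bx.q (theta_X h2 Xi Yi Ui hX N C0 v.2.2)
  have := D_add N (D_add N h1 h2') h3
  refine D_trans N this ?_
  intro r
  convert N.zero_mem using 1
  ring

include hY C1 in
theorem Theta_Y (v : E × (E × E)) : D N (Theta (x := x) (y := y) (u := u) h2 Xi Yi Ui (Y.prodMap Y2 v))
    (algebraMap (Bx S x y u) W (Bx.iota y) * Theta (x := x) (y := y) (u := u) h2 Xi Yi Ui v) := by
  rw [Theta_apply, Theta_apply]
  have h1 := theta_Y h2 Xi Yi Ui hY N C1 v.1
  have h2' := D_mul N Bx.p (theta_Y h2 Xi Yi Ui hY N C1 v.2.1)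
  have h3 := D_mul N Bx.q (theta_Y h2 Xi Yi Ui hY N C1 v.2.2)
  have := D_add N (D_add N h1 h2') h3
  refine D_trans N this ?_
  intro r
  convert N.zero_mem using 1
  ring

include hU C2 in
theorem Theta_U (v : E × (E × E)) : D N (Theta (x := x) (y := y) (u := u) h2 Xi Yi Ui (U.prodMap U2 v))
    (algebraMap (Bx S x y u) W (Bx.iota u) * Theta (x := x) (y := y) (u := u) h2 Xi Yi Ui v) := by
  rw [Theta_apply, Theta_apply]
  have h1 := theta_U h2 Xi Yi Ui hU N C2 v.1
  have h2' := D_mul N Bx.p (theta_U h2 Xi Yi Ui hU N C2 v.2.1)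
  have h3 := D_mul N Bx.q (theta_U h2 Xi Yi Ui hU N C2 v.2.2)
  have := D_add N (D_add N h1 h2') h3
  refine D_trans N this ?_
  intro r
  convert N.zero_mem using 1
  ring

include hX hY hU C0 C1 C2 in
theorem Theta_F (v : E × (E × E)) : D N (Theta (x := x) (y := y) (u := u) h2 Xi Yi Ui (F3 v))
    (Theta (x := x) (y := y) (u := u) h2 Xi Yi Ui v ^ 2) := by
  rw [Theta_apply, Theta_apply]
  have hPP : algebraMap (Bx S x y u) W Bx.p * algebraMap (Bx S x y u) W Bx.p =
      algebraMap (Bx S x y u) W (Bx.iota u) * algebraMap (Bx S x y u) W Bx.q := by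
    rw [← map_mul, Bx.pp, map_mul]
  have hQQ : algebraMap (Bx S x y u) W Bx.q * algebraMap (Bx S x y u) W Bx.q =
      algebraMap (Bx S x y u) W (Bx.iota u) * algebraMap (Bx S x y u) W (Bx.iota y) * algebraMap (Bx S x y u) W Bx.q +
      algebraMap (Bx S x y u) W (Bx.iota u) * (algebraMap (Bx S x y u) W (Bx.iota x) * (algebraMap (Bx S x y u) W (Bx.iota x) *
        algebraMap (Bx S x y u) W Bx.p)) := by
    rw [← map_mul, Bx.qq]
    simp only [map_add, map_mul, map_pow]
    ring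
  set T := theta h2 Xi Yi Ui with hT
  have e0 : T v.1 ^ 2 = T (F v.1) := theta_sq h2 Xi Yi Ui v.1
  have e1 : T v.2.1 ^ 2 = T (F v.2.1) := theta_sq h2 Xi Yi Ui v.2.1
  have e2 : T v.2.2 ^ 2 = T (F v.2.2) := theta_sq h2 Xi Yi Ui v.2.2
  have d1 : D N (T (F3 v).2.1) (algebraMap (Bx S x y u) W (Bx.iota u) * (algebraMap (Bx S x y u) W (Bx.iota x) *
      (algebraMap (Bx S x y u) W (Bx.iota x) * T (F v.2.2)))) :=
    D_trans N (theta_U h2 Xi Yi Ui hU N C2 _) (D_mul N _ (D_trans N (theta_X h2 Xi Yi Ui hX N C0 _)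
      (D_mul N _ (theta_X h2 Xi Yi Ui hX N C0 _))))
  have d2 : D N (T (F3 v).2.2) (algebraMap (Bx S x y u) W (Bx.iota u) * (T (F v.2.1) +
      algebraMap (Bx S x y u) W (Bx.iota y) * T (F v.2.2))) := by
    refine D_trans N (theta_U h2 Xi Yi Ui hU N C2 _) (D_mul N _ ?_)
    have e3 : theta h2 Xi Yi Ui ((AddMonoidHom.snd E E) (phi v.2)) = T (F v.2.1) + T (Y (F v.2.2)) := by
      rw [hT, ← map_add]
      rfl
    rw [e3]
    exact D_add N (D_refl N _) (theta_Y h2 Xi Yi Ui hY N C1 _)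
  have := D_add N (D_add N (D_refl N (T (F v.1))) (D_mul N Bx.p d1)) (D_mul N Bx.q d2)
  refine D_trans N this ?_
  intro r
  convert N.zero_mem using 1
  rw [add_sq' h2, add_sq' h2, mul_pow, mul_pow, e0, e1, e2]
  linear_combination (-(algebraMap (Bx S x y u) W r) * T (F v.2.1)) * hPP - (algebraMap (Bx S x y u) W r) * T (F v.2.2) * hQQ

variable (hS : ∀ s : S, ∃ ε s₁ s₂ s₃, (ε = 0 ∨ ε = 1) ∧ s = ε + x * s₁ + y * s₂ + u * s₃)

include hX hY hU C0 C1 C2 hS in
theorem surj_aux (n : ℕ) : ∀ a b c, a + b + c = n → ∀ s : S,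
    ∃ e : E, D N (theta h2 Xi Yi Ui e) (algebraMap (Bx S x y u) W (Bx.iota s) * Mo Xi Yi Ui a b c) := by
  induction n using Nat.strong_induction_on with
  | _ n ih =>
    intro a b c habc s
    obtain ⟨ε, s₁, s₂, s₃, hε, hs⟩ := hS s
    have t0 : ∃ e : E, D N (theta h2 Xi Yi Ui e)
        (algebraMap (Bx S x y u) W (Bx.iota ε) * Mo Xi Yi Ui a b c) := by
      rcases hε with rfl | rfl
      · refine ⟨0, ?_⟩
        rw [map_zero, map_zero, map_zero, zero_mul]
        exact D_refl N _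
      · refine ⟨mm a b c, ?_⟩
        rw [map_one, map_one, one_mul, theta_mm]
        exact D_refl N _
    have t1 : ∃ e : E, D N (theta h2 Xi Yi Ui e)
        (algebraMap (Bx S x y u) W (Bx.iota s₁) * (algebraMap (Bx S x y u) W (Bx.iota x) * Mo Xi Yi Ui a b c)) := by
      rcases a with _ | a
      · refine ⟨0, ?_⟩
        intro r
        have := N.neg_mem (C0 (r * Bx.iota s₁) (b + 1) (c + 1))
        convert this using 1
        rw [map_zero]
        simp only [map_mul]
        unfold Mo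
        linear_combination (-(algebraMap (Bx S x y u) W r) * (algebraMap (Bx S x y u) W (Bx.iota s₁)) * (Yi ^ (b + 1) * Ui ^ (c + 1))) * hX
      · obtain ⟨e, he⟩ := ih (a + b + c) (by omega) a b c rfl s₁
        refine ⟨e, ?_⟩
        have : algebraMap (Bx S x y u) W (Bx.iota x) * Mo Xi Yi Ui (a + 1) b c = Mo Xi Yi Ui a b c := by
          unfold Mo
          linear_combination (Xi ^ (a + 1) * Yi ^ (b + 1) * Ui ^ (c + 1)) * hX
        rw [this]
        exact he
    have t2 : ∃ e : E, D N (theta h2 Xi Yi Ui e)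
        (algebraMap (Bx S x y u) W (Bx.iota s₂) * (algebraMap (Bx S x y u) W (Bx.iota y) * Mo Xi Yi Ui a b c)) := by
      rcases b with _ | b
      · refine ⟨0, ?_⟩
        intro r
        have := N.neg_mem (C1 (r * Bx.iota s₂) (a + 1) (c + 1))
        convert this using 1
        rw [map_zero]
        simp only [map_mul]
        unfold Mo
        linear_combination (-(algebraMap (Bx S x y u) W r) * (algebraMap (Bx S x y u) W (Bx.iota s₂)) * (Xi ^ (a + 1) * Ui ^ (c + 1))) * hY
      · obtain ⟨e, he⟩ := ih (a + b + c) (by omega) a b c rfl s₂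
        refine ⟨e, ?_⟩
        have : algebraMap (Bx S x y u) W (Bx.iota y) * Mo Xi Yi Ui a (b + 1) c = Mo Xi Yi Ui a b c := by
          unfold Mo
          linear_combination (Xi ^ (a + 1) * Yi ^ (b + 1) * Ui ^ (c + 1)) * hY
        rw [this]
        exact he
    have t3 : ∃ e : E, D N (theta h2 Xi Yi Ui e)
        (algebraMap (Bx S x y u) W (Bx.iota s₃) * (algebraMap (Bx S x y u) W (Bx.iota u) * Mo Xi Yi Ui a b c)) := by
      rcases c with _ | c
      · refine ⟨0, ?_⟩
        intro r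
        have := N.neg_mem (C2 (r * Bx.iota s₃) (a + 1) (b + 1))
        convert this using 1
        rw [map_zero]
        simp only [map_mul]
        unfold Mo
        linear_combination (-(algebraMap (Bx S x y u) W r) * (algebraMap (Bx S x y u) W (Bx.iota s₃)) * (Xi ^ (a + 1) * Yi ^ (b + 1))) * hU
      · obtain ⟨e, he⟩ := ih (a + b + c) (by omega) a b c rfl s₃
        refine ⟨e, ?_⟩
        have : algebraMap (Bx S x y u) W (Bx.iota u) * Mo Xi Yi Ui a b (c + 1) = Mo Xi Yi Ui a b c := by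
          unfold Mo
          linear_combination (Xi ^ (a + 1) * Yi ^ (b + 1) * Ui ^ (c + 1)) * hU
        rw [this]
        exact he
    obtain ⟨e0, h0⟩ := t0
    obtain ⟨e1, h1⟩ := t1
    obtain ⟨e2, h2'⟩ := t2
    obtain ⟨e3, h3⟩ := t3
    refine ⟨e0 + e1 + e2 + e3, ?_⟩
    have := D_add N (D_add N (D_add N h0 h1) h2') h3
    rw [map_add, map_add, map_add]
    refine D_trans N this ?_
    intro r
    convert N.zero_mem using 1
    rw [hs]
    simp only [map_add, map_mul]
    ring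

include h2 hX hY hU C0 C1 C2 hS in
theorem main (hN : ∀ w ∈ N, w ^ 2 ∈ N)
    (hW : ∀ w : W, ∃ (k : ℕ) (r : Bx S x y u), w = algebraMap (Bx S x y u) W r * (Xi ^ k * Yi ^ k * Ui ^ k))
    (w : W) (hw : w ^ 2 ∈ N) : w ∈ N := by
  obtain ⟨k, r, hkr⟩ := hW w
  have hw' : w = algebraMap (Bx S x y u) W (r * Bx.iota x * Bx.iota y * Bx.iota u) * Mo Xi Yi Ui k k k := by
    rw [hkr]
    simp only [map_mul]
    unfold Mo
    have e : algebraMap (Bx S x y u) W (Bx.iota x) * Xi * (algebraMap (Bx S x y u) W (Bx.iota y) * Yi) *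
      (algebraMap (Bx S x y u) W (Bx.iota u) * Ui) = 1 := by rw [hX, hY, hU]; ring
    linear_combination (-(algebraMap (Bx S x y u) W r) * (Xi ^ k * Yi ^ k * Ui ^ k)) * e
  generalize r * Bx.iota x * Bx.iota y * Bx.iota u = r' at hw'
  obtain ⟨e0, h0⟩ := surj_aux h2 Xi Yi Ui hX hY hU N C0 C1 C2 hS _ k k k rfl r'.a
  obtain ⟨e1, h1⟩ := surj_aux h2 Xi Yi Ui hX hY hU N C0 C1 C2 hS _ k k k rfl r'.b
  obtain ⟨e2, h2'⟩ := surj_aux h2 Xi Yi Ui hX hY hU N C0 C1 C2 hS _ k k k rfl r'.c
  have hD : D N (Theta (x := x) (y := y) (u := u) h2 Xi Yi Ui (e0, (e1, e2))) w := by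
    rw [Theta_apply]
    have := D_add N (D_add N h0 (D_mul N Bx.p h1)) (D_mul N Bx.q h2')
    refine D_trans N this ?_
    intro r
    convert N.zero_mem using 1
    rw [hw']
    have e := congrArg (algebraMap (Bx S x y u) W) (Bx.decomp r')
    simp only [map_add, map_mul] at e
    linear_combination (-(algebraMap (Bx S x y u) W r) * Mo Xi Yi Ui k k k) * e
  rw [← mem_iff_of_D N hD]
  refine AN_V (N.toAddSubgroup.comap (Theta (x := x) (y := y) (u := u) h2 Xi Yi Ui)) ?_ ?_ ?_ ?_ _ ?_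
  · intro v hv
    have : Theta (x := x) (y := y) (u := u) h2 Xi Yi Ui v ∈ N := hv
    show Theta (x := x) (y := y) (u := u) h2 Xi Yi Ui _ ∈ N
    rw [mem_iff_of_D N (Theta_X h2 Xi Yi Ui hX N C0 v), ← Algebra.smul_def]
    exact N.smul_mem _ this
  · intro v hv
    have : Theta (x := x) (y := y) (u := u) h2 Xi Yi Ui v ∈ N := hv
    show Theta (x := x) (y := y) (u := u) h2 Xi Yi Ui _ ∈ N
    rw [mem_iff_of_D N (Theta_Y h2 Xi Yi Ui hY N C1 v), ← Algebra.smul_def]
    exact N.smul_mem _ this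
  · intro v hv
    have : Theta (x := x) (y := y) (u := u) h2 Xi Yi Ui v ∈ N := hv
    show Theta (x := x) (y := y) (u := u) h2 Xi Yi Ui _ ∈ N
    rw [mem_iff_of_D N (Theta_U h2 Xi Yi Ui hU N C2 v), ← Algebra.smul_def]
    exact N.smul_mem _ this
  · intro v hv
    have : Theta (x := x) (y := y) (u := u) h2 Xi Yi Ui v ∈ N := hv
    show Theta (x := x) (y := y) (u := u) h2 Xi Yi Ui _ ∈ N
    rw [mem_iff_of_D N (Theta_F h2 Xi Yi Ui hX hY hU N C0 C1 C2 v)]
    exact hN _ this
  · show Theta (x := x) (y := y) (u := u) h2 Xi Yi Ui _ ∈ N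
    rw [mem_iff_of_D N (Theta_F h2 Xi Yi Ui hX hY hU N C0 C1 C2 _)]
    have h3 := hD 1
    rw [map_one, one_mul] at h3
    have h4 := N.add_mem (hN _ h3) hw
    have h5 : (Theta (x := x) (y := y) (u := u) h2 Xi Yi Ui (e0, (e1, e2)) - w) ^ 2 + w ^ 2 =
      Theta (x := x) (y := y) (u := u) h2 Xi Yi Ui (e0, (e1, e2)) ^ 2 := by
      linear_combination h2 (w * w) - h2 (w * Theta (x := x) (y := y) (u := u) h2 Xi Yi Ui (e0, (e1, e2)))
    rwa [h5] at h4

end

end TopB
end Pool.Agent.R688.AN
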