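import Pool.Agent.R688.AN.Base
import Pool.Agent.R688.AN.TopB
import Pool.Agent.R688.AN.NegB
import Pool.Agent.R688.AN.Cech3

namespace Pool.Agent.R688.AN
namespace Bx

section dom
variable {S : Type*} [CommRing S] {x y u : S}

theorem iota_mul_eq (s t : S) (v w : Bx S x y u) (h : iota s * v = iota t * w) :
    s * v.a = t * w.a ∧ s * v.b = t * w.b ∧ s * v.c = t * w.c := by
  refine ⟨?_, ?_, ?_⟩
  · have := congrArg Bx.a h
    simpa using this
  · have := congrArg Bx.b h
    simpa using this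
  · have := congrArg Bx.c h
    simpa using this

theorem iota_mul_eq_zero [IsDomain S] (s : S) (hs : s ≠ 0) (v : Bx S x y u) (h : iota s * v = 0) : v = 0 := by
  obtain ⟨h1, h2, h3⟩ := iota_mul_eq s 0 v 0 (by rw [h, mul_zero])
  simp only [zero_mul] at h1 h2 h3
  ext
  · exact (mul_eq_zero.mp h1).resolve_left hs
  · exact (mul_eq_zero.mp h2).resolve_left hs
  · exact (mul_eq_zero.mp h3).resolve_left hs

theorem iota_mem_nzd [IsDomain S] (s : S) (hs : s ≠ 0) : (iota s : Bx S x y u) ∈ nonZeroDivisors (Bx S x y u) := by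
  rw [mem_nonZeroDivisors_iff_right]
  intro v hv
  rw [mul_comm] at hv
  exact iota_mul_eq_zero s hs v hv

end dom

end Bx

namespace Final
open Base Cech

abbrev RR := Bx S x y u
abbrev RP := Bx T x' y' u'

/-- the system of parameters of `RR` -/
noncomputable def f : Fin 3 → RR := ![Bx.iota x, Bx.iota y, Bx.iota u]
/-- the system of parameters of `RP` -/
noncomputable def g : Fin 2 → RP := ![Bx.iota x', Bx.iota u']

theorem inj_of_nzd {n : ℕ} {R : Type*} [CommRing R] (h : Fin n → R)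
    (H : ∏ j, h j ∈ nonZeroDivisors R) : Function.Injective (algebraMap R (W h)) := by
  apply IsLocalization.injective (W h) (M := Submonoid.powers (∏ j, h j))
  rwa [Submonoid.powers_le]

theorem f_nzd : ∏ j, f j ∈ nonZeroDivisors RR := by
  rw [Fin.prod_univ_three]
  show Bx.iota x * Bx.iota y * Bx.iota u ∈ _
  rw [← map_mul, ← map_mul]
  exact Bx.iota_mem_nzd _ (mul_ne_zero (mul_ne_zero x_ne y_ne) u_ne)

theorem g_nzd : ∏ j, g j ∈ nonZeroDivisors RP := by
  rw [Fin.prod_univ_two]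
  show Bx.iota x' * Bx.iota u' ∈ _
  rw [← map_mul]
  exact Bx.iota_mem_nzd _ (mul_ne_zero x'_ne u'_ne)

theorem R_col1 (k : ℕ) (z : RR) (h : (Bx.iota x : RR) ^ k ∣ Bx.iota y ^ k * z) :
    (Bx.iota x : RR) ^ k ∣ z := by
  obtain ⟨w, hw⟩ := h
  rw [← map_pow, ← map_pow] at hw
  obtain ⟨h1, h2, h3⟩ := Bx.iota_mul_eq _ _ _ _ hw
  obtain ⟨a, ha⟩ := S_col1 k z.a ⟨w.a, h1⟩
  obtain ⟨b, hb⟩ := S_col1 k z.b ⟨w.b, h2⟩
  obtain ⟨c, hc⟩ := S_col1 k z.c ⟨w.c, h3⟩
  refine ⟨⟨a, b, c⟩, ?_⟩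
  rw [← map_pow]
  ext
  · simp [-map_pow, ha]
  · simp [-map_pow, hb]
  · simp [-map_pow, hc]

theorem R_col2 (k : ℕ) (z a b : RR) (h : (Bx.iota u : RR) ^ k * z = Bx.iota x ^ k * a + Bx.iota y ^ k * b) :
    ∃ a' b', z = (Bx.iota x : RR) ^ k * a' + Bx.iota y ^ k * b' := by
  rw [← map_pow, ← map_pow, ← map_pow] at h
  have h1 := congrArg Bx.a h
  have h2 := congrArg Bx.b h
  have h3 := congrArg Bx.c h
  simp [-map_pow] at h1 h2 h3
  obtain ⟨a1, b1, e1⟩ := S_col2 k z.a _ _ h1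
  obtain ⟨a2, b2, e2⟩ := S_col2 k z.b _ _ h2
  obtain ⟨a3, b3, e3⟩ := S_col2 k z.c _ _ h3
  refine ⟨⟨a1, a2, a3⟩, ⟨b1, b2, b3⟩, ?_⟩
  rw [← map_pow, ← map_pow]
  ext
  · simp [-map_pow, e1]
  · simp [-map_pow, e2]
  · simp [-map_pow, e3]

theorem R_two (w : W f) : w + w = 0 := char_two_W f w

theorem unit_inv {n : ℕ} {R : Type*} [CommRing R] (h : Fin n → R) (s : Finset (Fin n)) :
    ∃ v : W h, algebraMap R (W h) (∏ j ∈ s, h j) * v = 1 :=
  (isUnit_res h (Finset.subset_univ s)).exists_right_inv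

theorem pos_top : IsAntiNilpotent (frobH 2 f 3) := by
  apply isAntiNilpotent_top (m := 2)
  intro N hN hN2 w hw
  obtain ⟨Xi, hX⟩ := unit_inv f {0}
  obtain ⟨Yi, hY⟩ := unit_inv f {1}
  obtain ⟨Ui, hU⟩ := unit_inv f {2}
  rw [Finset.prod_singleton] at hX hY hU
  have hX' : algebraMap RR (W f) (Bx.iota x) * Xi = 1 := hX
  have hY' : algebraMap RR (W f) (Bx.iota y) * Yi = 1 := hY
  have hU' : algebraMap RR (W f) (Bx.iota u) * Ui = 1 := hU
  have pX : ∀ k, algebraMap RR (W f) (Bx.iota x) ^ k * Xi ^ k = 1 := fun k => by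
    rw [← mul_pow, hX', one_pow]
  have pY : ∀ k, algebraMap RR (W f) (Bx.iota y) ^ k * Yi ^ k = 1 := fun k => by
    rw [← mul_pow, hY', one_pow]
  have pU : ∀ k, algebraMap RR (W f) (Bx.iota u) ^ k * Ui ^ k = 1 := fun k => by
    rw [← mul_pow, hU', one_pow]
  refine TopB.main R_two Xi Yi Ui hX' hY' hU' N ?_ ?_ ?_ hS hN2 ?_ w hw
  · intro r b c
    apply hN 0 _ (b + c) (r * (Bx.iota y ^ c * Bx.iota u ^ b))
    have e : ∏ i ∈ Finset.univ.erase (0 : Fin 3), f i = Bx.iota y * Bx.iota u := by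
      rw [show Finset.univ.erase (0 : Fin 3) = {1, 2} by decide, Finset.prod_pair (by decide)]
      rfl
    rw [e, mul_pow, pow_add, pow_add]
    simp only [map_mul, map_pow]
    linear_combination (algebraMap RR (W f) r * algebraMap RR (W f) (Bx.iota y) ^ c *
      algebraMap RR (W f) (Bx.iota u) ^ b * (algebraMap RR (W f) (Bx.iota u) ^ c * Ui ^ c)) * pY b +
      (algebraMap RR (W f) r * algebraMap RR (W f) (Bx.iota y) ^ c *
      algebraMap RR (W f) (Bx.iota u) ^ b) * pU c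
  · intro r a c
    apply hN 1 _ (a + c) (r * (Bx.iota x ^ c * Bx.iota u ^ a))
    have e : ∏ i ∈ Finset.univ.erase (1 : Fin 3), f i = Bx.iota x * Bx.iota u := by
      rw [show Finset.univ.erase (1 : Fin 3) = {0, 2} by decide, Finset.prod_pair (by decide)]
      rfl
    rw [e, mul_pow, pow_add, pow_add]
    simp only [map_mul, map_pow]
    linear_combination (algebraMap RR (W f) r * algebraMap RR (W f) (Bx.iota x) ^ c *
      algebraMap RR (W f) (Bx.iota u) ^ a * (algebraMap RR (W f) (Bx.iota u) ^ c * Ui ^ c)) * pX a +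
      (algebraMap RR (W f) r * algebraMap RR (W f) (Bx.iota x) ^ c *
      algebraMap RR (W f) (Bx.iota u) ^ a) * pU c
  · intro r a b
    apply hN 2 _ (a + b) (r * (Bx.iota x ^ b * Bx.iota y ^ a))
    have e : ∏ i ∈ Finset.univ.erase (2 : Fin 3), f i = Bx.iota x * Bx.iota y := by
      rw [show Finset.univ.erase (2 : Fin 3) = {0, 1} by decide, Finset.prod_pair (by decide)]
      rfl
    rw [e, mul_pow, pow_add, pow_add]
    simp only [map_mul, map_pow]
    linear_combination (algebraMap RR (W f) r * algebraMap RR (W f) (Bx.iota x) ^ b *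
      algebraMap RR (W f) (Bx.iota y) ^ a * (algebraMap RR (W f) (Bx.iota y) ^ b * Yi ^ b)) * pX a +
      (algebraMap RR (W f) r * algebraMap RR (W f) (Bx.iota x) ^ b *
      algebraMap RR (W f) (Bx.iota y) ^ a) * pY b
  · intro z
    obtain ⟨k, r, h⟩ := IsLocalization.Away.surj (∏ j : Fin 3, f j) z
    refine ⟨k, r, ?_⟩
    have e : ∏ j : Fin 3, f j = Bx.iota x * Bx.iota y * Bx.iota u := by
      rw [Fin.prod_univ_three]; rfl
    have h' : z * (algebraMap RR (W f) (Bx.iota x * Bx.iota y * Bx.iota u)) ^ k =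
        algebraMap RR (W f) r := by rw [← e]; exact h
    rw [← h']
    simp only [map_mul, mul_pow]
    linear_combination (-z * (algebraMap RR (W f) (Bx.iota y) ^ k * Yi ^ k) *
      (algebraMap RR (W f) (Bx.iota u) ^ k * Ui ^ k)) * pX k - z *
      (algebraMap RR (W f) (Bx.iota u) ^ k * Ui ^ k) * pY k - z * pU k

theorem pos (i : ℕ) : IsAntiNilpotent (frobH 2 f i) := by
  have hx0 : ∀ z : RR, Bx.iota x * z = 0 → z = 0 := fun z hz => Bx.iota_mul_eq_zero x x_ne z hz
  match i with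
  | 0 =>
    apply isAntiNilpotent_of_exact
    exact exact0 (Bx.iota x : RR) (Bx.iota y) (Bx.iota u) (inj_of_nzd _ f_nzd)
  | 1 =>
    apply isAntiNilpotent_of_exact
    exact exact1 (Bx.iota x : RR) (Bx.iota y) (Bx.iota u) (inj_of_nzd _ f_nzd) R_col1
  | 2 =>
    apply isAntiNilpotent_of_exact
    exact exact2 (Bx.iota x : RR) (Bx.iota y) (Bx.iota u) (inj_of_nzd _ f_nzd) hx0 R_col1 R_col2
  | 3 => exact pos_top
  | i + 4 => exact isAntiNilpotent_of_gt f (i + 4) (by omega)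

theorem neg : ¬ IsAntiNilpotent (frobH 2 g 2) := by
  obtain ⟨yi, hyi⟩ := y'_unit
  obtain ⟨Xi, hX⟩ := unit_inv g {0}
  obtain ⟨Ui, hU⟩ := unit_inv g {1}
  rw [Finset.prod_singleton] at hX hU
  have hX' : algebraMap RP (W g) (Bx.iota x') * Xi = 1 := hX
  have hU' : algebraMap RP (W g) (Bx.iota u') * Ui = 1 := hU
  have h2 : ∀ t : T, t + t = 0 := char_two_R (R := T)
  refine not_isAntiNilpotent_top (m := 1) g (NegB.N Xi Ui hX' hU' yi) ?_ ?_
    (NegB.bad (T := T) (x := x') (y := y') (u := u') Xi Ui) ?_ ?_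
  · intro j w k r h
    apply NegB.I_le_N
    fin_cases j
    · apply Submodule.mem_sup_right
      refine ⟨k, r, ?_⟩
      have e : ∏ i ∈ Finset.univ.erase (0 : Fin 2), g i = Bx.iota u' := by
        rw [show Finset.univ.erase (0 : Fin 2) = {1} by decide, Finset.prod_singleton]
        rfl
      rw [← e]
      exact h
    · apply Submodule.mem_sup_left
      refine ⟨k, r, ?_⟩
      have e : ∏ i ∈ Finset.univ.erase (1 : Fin 2), g i = Bx.iota x' := by
        rw [show Finset.univ.erase (1 : Fin 2) = {0} by decide, Finset.prod_singleton]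
        rfl
      rw [← e]
      exact h
  · intro w hw
    exact NegB.N_sq hyi h2 Xi Ui hX' hU' hw
  · exact NegB.bad_sq Xi Ui hX' hU'
  · exact NegB.bad_notMem Xi Ui hX' hU' (inj_of_nzd _ g_nzd)
      (fun z hz => (mul_eq_zero.mp hz).resolve_left u'_ne) T_col one_notMem

end Final
end Pool.Agent.R688.AN
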