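import Pool.Agent.R688.AN.Final

namespace Pool.Agent.R688.AN
namespace Final
open Base Cech

instance : IsLocalRing RR := Bx.isLocalRing u_mem
instance : IsLocalRing RP := Bx.isLocalRing u'_mem

/-- the localization map -/
noncomputable def mapB : RR →+* RP where
  toFun v := ⟨algebraMap S T v.a, algebraMap S T v.b, algebraMap S T v.c⟩
  map_one' := by
    ext
    · exact map_one _
    · exact map_zero _
    · exact map_zero _
  map_zero' := by
    ext <;> exact map_zero _
  map_add' v w := by
    ext <;> exact map_add _ _ _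
  map_mul' v w := by
    ext
    · show algebraMap S T _ = _
      rw [Bx.mul_a, Bx.mul_a]
      simp only [map_add, map_mul, map_pow]
      rfl
    · show algebraMap S T _ = _
      rw [Bx.mul_b, Bx.mul_b]
      simp only [map_add, map_mul, map_pow]
      rfl
    · show algebraMap S T _ = _
      rw [Bx.mul_c, Bx.mul_c]
      simp only [map_add, map_mul, map_pow]
      rfl

noncomputable instance : Algebra RR RP := mapB.toAlgebra

theorem algebraMap_def : algebraMap RR RP = mapB := rfl
theorem mapB_a (v : RR) : (mapB v).a = algebraMap S T v.a := rfl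
theorem mapB_b (v : RR) : (mapB v).b = algebraMap S T v.b := rfl
theorem mapB_c (v : RR) : (mapB v).c = algebraMap S T v.c := rfl

theorem u_mem_pS : u ∈ pS := by rw [pS_eq]; exact Ideal.subset_span (by simp)

/-- the prime ideal `(x, u, p, q)` -/
noncomputable def P : Ideal RR where
  carrier := {v | v.a ∈ pS}
  zero_mem' := pS.zero_mem
  add_mem' := fun ha hb => pS.add_mem ha hb
  smul_mem' := by
    intro r v hv
    show (r * v).a ∈ pS
    rw [Bx.mul_a]
    refine pS.add_mem (pS.mul_mem_left _ hv) ?_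
    rw [show u ^ 2 * x ^ 2 * (r.b * v.c + r.c * v.b) = u * (u * x ^ 2 * (r.b * v.c + r.c * v.b)) by ring]
    exact pS.mul_mem_right _ u_mem_pS

theorem mem_P (v : RR) : v ∈ P ↔ v.a ∈ pS := Iff.rfl

instance : P.IsPrime := by
  refine ⟨?_, ?_⟩
  · rw [Ideal.ne_top_iff_one, mem_P]
    exact (Ideal.ne_top_iff_one _).mp pS_prime.ne_top
  · intro v w h
    rw [mem_P] at h ⊢
    rw [Bx.mul_a] at h
    have h2 : u ^ 2 * x ^ 2 * (v.b * w.c + v.c * w.b) ∈ pS := by
      rw [show u ^ 2 * x ^ 2 * (v.b * w.c + v.c * w.b) = u * (u * x ^ 2 * (v.b * w.c + v.c * w.b)) by ring]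
      exact pS.mul_mem_right _ u_mem_pS
    exact pS_prime.mem_or_mem ((pS.add_mem_iff_left h2).mp h)

instance : IsLocalization.AtPrime RP P where
  map_units := by
    rintro ⟨v, hv⟩
    rw [Bx.isUnit_iff u'_mem]
    exact IsLocalization.map_units T (⟨v.a, hv⟩ : pS.primeCompl)
  surj := by
    intro z
    obtain ⟨⟨a, s⟩, ha⟩ := IsLocalization.surj pS.primeCompl z.a
    obtain ⟨⟨b, t⟩, hb⟩ := IsLocalization.surj pS.primeCompl z.b
    obtain ⟨⟨c, r⟩, hc⟩ := IsLocalization.surj pS.primeCompl z.c
    simp only at ha hb hc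
    refine ⟨(⟨a * (t * r), b * (s * r), c * (s * t)⟩,
      ⟨Bx.iota ((s : S) * t * r), ?_⟩), ?_⟩
    · show (s : S) * t * r ∉ pS
      exact (s * t * r : pS.primeCompl).2
    · show z * mapB (Bx.iota ((s : S) * t * r)) =
        mapB (⟨a * (t * r), b * (s * r), c * (s * t)⟩ : RR)
      have e : mapB (Bx.iota ((s : S) * t * r)) = Bx.iota (algebraMap S T ((s : S) * t * r)) := by
        ext
        · rfl
        · exact map_zero _
        · exact map_zero _
      rw [e, mul_comm]
      ext
      · rw [mapB_a]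
        simp only [Bx.mul_a, Bx.iota_a, Bx.iota_b, Bx.iota_c, zero_mul, add_zero, mul_zero]
        simp only [map_mul]
        rw [← ha]; ring
      · rw [mapB_b]
        simp only [Bx.mul_b, Bx.iota_a, Bx.iota_b, Bx.iota_c, zero_mul, add_zero, mul_zero]
        simp only [map_mul]
        rw [← hb]; ring
      · rw [mapB_c]
        simp only [Bx.mul_c, Bx.iota_a, Bx.iota_b, Bx.iota_c, zero_mul, add_zero, mul_zero]
        simp only [map_mul]
        rw [← hc]; ring
  exists_of_eq := by
    intro v w h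
    refine ⟨1, ?_⟩
    congr 1
    ext
    · exact algT_inj (congrArg Bx.a h)
    · exact algT_inj (congrArg Bx.b h)
    · exact algT_inj (congrArg Bx.c h)

theorem mem_max_RR (v : RR) : v ∈ IsLocalRing.maximalIdeal RR ↔ v.a ∈ IsLocalRing.maximalIdeal S := by
  rw [IsLocalRing.mem_maximalIdeal, IsLocalRing.mem_maximalIdeal, mem_nonunits_iff, mem_nonunits_iff,
    Bx.isUnit_iff u_mem]

theorem mem_max_RP (v : RP) : v ∈ IsLocalRing.maximalIdeal RP ↔ v.a ∈ IsLocalRing.maximalIdeal T := by
  rw [IsLocalRing.mem_maximalIdeal, IsLocalRing.mem_maximalIdeal, mem_nonunits_iff, mem_nonunits_iff,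
    Bx.isUnit_iff u'_mem]

theorem pq_mem {S : Type*} [CommRing S] {x y u : S} (J : Ideal (Bx S x y u))
    (hu : (Bx.iota u : Bx S x y u) ∈ J.radical) (b c : S) :
    (Bx.iota b * Bx.p + Bx.iota c * Bx.q : Bx S x y u) ∈ J.radical := by
  have hp : (Bx.p : Bx S x y u) ∈ J.radical := by
    rw [← Ideal.radical_idem]
    refine ⟨2, ?_⟩
    rw [pow_two, Bx.pp]
    exact Ideal.mul_mem_right _ _ hu
  have hq : (Bx.q : Bx S x y u) ∈ J.radical := by
    rw [← Ideal.radical_idem]
    refine ⟨2, ?_⟩
    rw [pow_two, Bx.qq, map_mul, map_mul, mul_assoc, mul_assoc]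
    exact Ideal.add_mem _ (Ideal.mul_mem_right _ _ hu) (Ideal.mul_mem_right _ _ hu)
  exact Ideal.add_mem _ (Ideal.mul_mem_left _ _ hp) (Ideal.mul_mem_left _ _ hq)

theorem rad_f : (Ideal.span (Set.range f)).radical = IsLocalRing.maximalIdeal RR := by
  have h0 : Bx.iota x ∈ Ideal.span (Set.range f) := Ideal.subset_span ⟨0, rfl⟩
  have h1 : Bx.iota y ∈ Ideal.span (Set.range f) := Ideal.subset_span ⟨1, rfl⟩
  have h2 : Bx.iota u ∈ Ideal.span (Set.range f) := Ideal.subset_span ⟨2, rfl⟩
  apply le_antisymm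
  · rw [Ideal.IsPrime.radical_le_iff inferInstance, Ideal.span_le]
    rintro _ ⟨i, rfl⟩
    show f i ∈ IsLocalRing.maximalIdeal RR
    rw [mem_max_RR, maxS]
    fin_cases i
    · exact Ideal.subset_span (by simp [f])
    · exact Ideal.subset_span (by simp [f])
    · exact Ideal.subset_span (by simp [f])
  · intro v hv
    rw [mem_max_RR, maxS, Submodule.mem_span_triple] at hv
    obtain ⟨a, b, c, h⟩ := hv
    simp only [smul_eq_mul] at h
    have e : v = (Bx.iota a * Bx.iota x + Bx.iota b * Bx.iota y + Bx.iota c * Bx.iota u) +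
        (Bx.iota v.b * Bx.p + Bx.iota v.c * Bx.q) := by
      conv_lhs => rw [Bx.decomp v, ← h]
      simp only [map_add, map_mul]
      ring
    rw [e]
    apply Ideal.add_mem
    · apply Ideal.le_radical
      exact Ideal.add_mem _ (Ideal.add_mem _ (Ideal.mul_mem_left _ _ h0) (Ideal.mul_mem_left _ _ h1))
        (Ideal.mul_mem_left _ _ h2)
    · exact pq_mem _ (Ideal.le_radical h2) _ _

theorem rad_g : (Ideal.span (Set.range g)).radical = IsLocalRing.maximalIdeal RP := by
  have h0 : Bx.iota x' ∈ Ideal.span (Set.range g) := Ideal.subset_span ⟨0, rfl⟩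
  have h2 : Bx.iota u' ∈ Ideal.span (Set.range g) := Ideal.subset_span ⟨1, rfl⟩
  apply le_antisymm
  · rw [Ideal.IsPrime.radical_le_iff inferInstance, Ideal.span_le]
    rintro _ ⟨i, rfl⟩
    show g i ∈ IsLocalRing.maximalIdeal RP
    rw [mem_max_RP, maxT]
    fin_cases i
    · exact Ideal.subset_span (by simp [g])
    · exact Ideal.subset_span (by simp [g])
  · intro v hv
    rw [mem_max_RP, maxT, Ideal.mem_span_pair] at hv
    obtain ⟨a, b, h⟩ := hv
    have e : v = (Bx.iota a * Bx.iota x' + Bx.iota b * Bx.iota u') +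
        (Bx.iota v.b * Bx.p + Bx.iota v.c * Bx.q) := by
      conv_lhs => rw [Bx.decomp v, ← h]
      simp only [map_add, map_mul]
      ring
    rw [e]
    apply Ideal.add_mem
    · apply Ideal.le_radical
      exact Ideal.add_mem _ (Ideal.mul_mem_left _ _ h0) (Ideal.mul_mem_left _ _ h2)
    · exact pq_mem _ (Ideal.le_radical h2) _ _

end Final
end Pool.Agent.R688.AN
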